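import Mathlib

/-!
# The isoperimetric estimate for chords of a Lagrangian product
-/

set_option autoImplicit false

open Set MeasureTheory
open scoped Matrix

namespace Pool.Agent.W560.Coiso

theorem hasDerivAt_dot {n : ℕ} {q p : ℝ → Fin n → ℝ} {q' p' : Fin n → ℝ} {t : ℝ}
    (hq : HasDerivAt q q' t) (hp : HasDerivAt p p' t) :
    HasDerivAt (fun t => q t ⬝ᵥ p t) (q' ⬝ᵥ p t + q t ⬝ᵥ p') t := by
  simp only [dotProduct]
  rw [← Finset.sum_add_distrib]
  refine HasDerivAt.fun_sum fun i _ => ?_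
  exact (hasDerivAt_pi.1 hq i).mul (hasDerivAt_pi.1 hp i)

theorem continuousOn_dot {n : ℕ} {q p : ℝ → Fin n → ℝ} {s : Set ℝ}
    (hq : ContinuousOn q s) (hp : ContinuousOn p s) :
    ContinuousOn (fun t => q t ⬝ᵥ p t) s := by
  simp only [dotProduct]
  refine continuousOn_finsetSum _ fun i _ => ?_
  exact (continuousOn_pi.1 hq i).mul (continuousOn_pi.1 hp i)

theorem core {n : ℕ} {I J : Type*} [Fintype I] [Fintype J] (κ : I → Fin n → ℝ)
    (τ : J → Fin n → ℝ) {T : ℝ} (hT : 0 ≤ T) (q p : ℝ → Fin n → ℝ) (α : I → ℝ → ℝ)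
    (β : J → ℝ → ℝ) (hα : ∀ i, ContinuousOn (α i) (Icc 0 T))
    (hβ : ∀ j, ContinuousOn (β j) (Icc 0 T)) (hα0 : ∀ i, ∀ t ∈ Icc 0 T, 0 ≤ α i t)
    (hqc : ContinuousOn q (Icc 0 T)) (hpc : ContinuousOn p (Icc 0 T))
    (hq : ∀ t ∈ Ioo 0 T, HasDerivAt q (∑ j, β j t • τ j) t)
    (hp : ∀ t ∈ Ioo 0 T, HasDerivAt p (-∑ i, α i t • κ i) t)
    (hpp : p T = p 0) (hqp : q T ⬝ᵥ p 0 = q 0 ⬝ᵥ p 0) (v : Fin n → ℝ) (r : ℝ)
    (hv : ∀ t ∈ Icc 0 T, ∀ i, κ i ⬝ᵥ (q t + v) ≤ r) :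
    ∫ t in (0 : ℝ)..T, ((∑ i, α i t * (κ i ⬝ᵥ q t)) + ∑ j, β j t * (τ j ⬝ᵥ p t)) ≤
      2 * (r * ∫ t in (0 : ℝ)..T, ∑ i, α i t) := by
  have hu : uIcc (0 : ℝ) T = Icc 0 T := uIcc_of_le hT
  -- continuity of the integrands
  have cA : ContinuousOn (fun t => ∑ i, α i t * (κ i ⬝ᵥ q t)) (Icc 0 T) :=
    continuousOn_finsetSum _ fun i _ => (hα i).mul (continuousOn_dot continuousOn_const hqc)
  have cB : ContinuousOn (fun t => ∑ j, β j t * (τ j ⬝ᵥ p t)) (Icc 0 T) :=
    continuousOn_finsetSum _ fun j _ => (hβ j).mul (continuousOn_dot continuousOn_const hpc)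
  have iA : IntervalIntegrable (fun t => ∑ i, α i t * (κ i ⬝ᵥ q t)) volume 0 T :=
    ContinuousOn.intervalIntegrable (by rwa [hu])
  have iB : IntervalIntegrable (fun t => ∑ j, β j t * (τ j ⬝ᵥ p t)) volume 0 T :=
    ContinuousOn.intervalIntegrable (by rwa [hu])
  have ca : ContinuousOn (fun t => ∑ i, α i t) (Icc 0 T) :=
    continuousOn_finsetSum _ fun i _ => hα i
  have ia : IntervalIntegrable (fun t => ∑ i, α i t) volume 0 T :=
    ContinuousOn.intervalIntegrable (by rwa [hu])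
  have cv : ContinuousOn (fun t => ∑ i, α i t * (κ i ⬝ᵥ v)) (Icc 0 T) :=
    continuousOn_finsetSum _ fun i _ => (hα i).mul continuousOn_const
  have iv : IntervalIntegrable (fun t => ∑ i, α i t * (κ i ⬝ᵥ v)) volume 0 T :=
    ContinuousOn.intervalIntegrable (by rwa [hu])
  -- the two halves of the action agree
  have e1 : ∫ t in (0 : ℝ)..T, ((∑ j, β j t * (τ j ⬝ᵥ p t)) - ∑ i, α i t * (κ i ⬝ᵥ q t)) = 0 := by
    have h := intervalIntegral.integral_eq_sub_of_hasDerivAt_of_le hT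
      (f := fun t => q t ⬝ᵥ p t)
      (f' := fun t => (∑ j, β j t * (τ j ⬝ᵥ p t)) - ∑ i, α i t * (κ i ⬝ᵥ q t))
      (continuousOn_dot hqc hpc) (fun t ht => by
        have := hasDerivAt_dot (hq t ht) (hp t ht)
        refine this.congr_deriv ?_
        rw [sum_dotProduct, dotProduct_neg, dotProduct_sum, ← sub_eq_add_neg]
        congr 1
        · refine Finset.sum_congr rfl fun j _ => ?_
          rw [smul_dotProduct, smul_eq_mul]
        · refine Finset.sum_congr rfl fun i _ => ?_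
          rw [dotProduct_smul, smul_eq_mul, dotProduct_comm]) (iB.sub iA)
    rw [h, hpp, hqp, sub_self]
  have e2 : ∫ t in (0 : ℝ)..T, ∑ i, α i t * (κ i ⬝ᵥ v) = 0 := by
    have h := intervalIntegral.integral_eq_sub_of_hasDerivAt_of_le hT
      (f := fun t => -(p t ⬝ᵥ v)) (f' := fun t => ∑ i, α i t * (κ i ⬝ᵥ v))
      (continuousOn_dot hpc continuousOn_const).neg (fun t ht => by
        have := (hasDerivAt_dot (hp t ht) (hasDerivAt_const t v)).neg
        refine this.congr_deriv ?_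
        rw [neg_dotProduct, sum_dotProduct, dotProduct_zero, add_zero, neg_neg]
        refine Finset.sum_congr rfl fun i _ => ?_
        rw [smul_dotProduct, smul_eq_mul]) iv
    rw [h, hpp, sub_self]
  have e3 : (∫ t in (0 : ℝ)..T, ∑ i, α i t * (κ i ⬝ᵥ q t)) +
      ∫ t in (0 : ℝ)..T, ∑ i, α i t * (κ i ⬝ᵥ v) ≤ r * ∫ t in (0 : ℝ)..T, ∑ i, α i t := by
    rw [← intervalIntegral.integral_add iA iv, ← intervalIntegral.integral_const_mul]
    refine intervalIntegral.integral_mono_on hT (iA.add iv) (ia.const_mul r) fun t ht => ?_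
    rw [← Finset.sum_add_distrib, Finset.mul_sum]
    refine Finset.sum_le_sum fun i _ => ?_
    rw [← mul_add, ← dotProduct_add, mul_comm r]
    exact mul_le_mul_of_nonneg_left (hv t ht i) (hα0 i t ht)
  rw [intervalIntegral.integral_sub iB iA] at e1
  rw [intervalIntegral.integral_add iA iB]
  linarith

end Pool.Agent.W560.Coiso
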