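import Mathlib

/-!
# The coisotropic Hofer-Zehnder capacity relative to `{p_n = 0}`
-/

set_option autoImplicit false

open Set
open scoped ContDiff

namespace Pool.Agent.W560.Coiso

/-- `ℝ²ⁿ` with coordinates `x = (q, p)`. -/
abbrev Phase (n : ℕ) : Type := (Fin n → ℝ) × (Fin n → ℝ)

/-- The hyperplane `ℝ^{n,n-1} = {p_n = 0}` of `ℝ²ⁿ`, where `n = k + 1`. -/
def hyper (k : ℕ) : Set (Phase (k + 1)) := {x | x.2 (Fin.last k) = 0}

/-- The leaf relation: `y - x` is a multiple of the `q_n` coordinate vector. -/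
def Leaf {k : ℕ} (x y : Phase (k + 1)) : Prop :=
  ∃ s : ℝ, y - x = s • ((Pi.single (Fin.last k) 1, 0) : Phase (k + 1))

/-- The Hamiltonian vector field of `H : D → ℝ` for `ω₀ = ∑ dqᵢ ∧ dpᵢ`, that is
`(∂H/∂p, -∂H/∂q)`. -/
noncomputable def hamField {n : ℕ} (D : Set (Phase n)) (H : Phase n → ℝ) (x : Phase n) : Phase n :=
  (fun i => fderivWithin ℝ H D x ((0, Pi.single i 1) : Phase n),
    fun i => -fderivWithin ℝ H D x ((Pi.single i 1, 0) : Phase n))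

/-- `H : D → ℝ` is smooth and simple, with the constant `m(H) = m`. -/
structure IsSimple {k : ℕ} (D : Set (Phase (k + 1))) (H : Phase (k + 1) → ℝ) (m : ℝ) : Prop where
  smooth : ContDiffOn ℝ ∞ H D
  const : ∃ K : Set (Phase (k + 1)), IsCompact K ∧ K ⊆ interior D ∧ (K ∩ hyper k).Nonempty ∧
    ∀ x ∈ D \ K, H x = m
  zero : ∃ U : Set (Phase (k + 1)), IsOpen U ∧ (U ∩ (D ∩ hyper k)).Nonempty ∧
    ∀ x ∈ U ∩ D, H x = 0
  range : ∀ x ∈ D, 0 ≤ H x ∧ H x ≤ m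

/-- `γ : [0, ∞) → D` solves `γ' = X_H(γ)`. -/
def IsOrbit {k : ℕ} (D : Set (Phase (k + 1))) (H : Phase (k + 1) → ℝ)
    (γ : ℝ → Phase (k + 1)) : Prop :=
  ∀ t : ℝ, 0 ≤ t → γ t ∈ D ∧ HasDerivWithinAt γ (hamField D H (γ t)) (Ici 0) t

/-- The return time `T_γ = inf {t > 0 : γ(t) ∈ N, γ(t) ∼ γ(0)}`, `N = D ∩ {p_n = 0}`. -/
noncomputable def returnTime {k : ℕ} (D : Set (Phase (k + 1))) (γ : ℝ → Phase (k + 1)) : EReal :=
  sInf {T : EReal | ∃ t : ℝ, T = (t : EReal) ∧ 0 < t ∧ γ t ∈ D ∩ hyper k ∧ Leaf (γ 0) (γ t)}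

/-- `H` is admissible: solutions starting on `N` are constant or have return time `> 1`. -/
def IsAdmissible {k : ℕ} (D : Set (Phase (k + 1))) (H : Phase (k + 1) → ℝ) : Prop :=
  ∀ γ : ℝ → Phase (k + 1), IsOrbit D H γ → γ 0 ∈ D ∩ hyper k →
    (∀ t : ℝ, 0 ≤ t → γ t = γ 0) ∨ 1 < returnTime D γ

/-- The coisotropic Hofer-Zehnder capacity `c_LR(D, D ∩ ℝ^{n,n-1})`, `n = k + 1`. -/
noncomputable def cLR {k : ℕ} (D : Set (Phase (k + 1))) : ENNReal :=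
  ⨆ (m : ℝ) (_ : ∃ H : Phase (k + 1) → ℝ, IsSimple D H m ∧ IsAdmissible D H), ENNReal.ofReal m

end Pool.Agent.W560.Coiso
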