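import Mathlib

/-!
# The soft maximum of finitely many linear functionals
-/

set_option autoImplicit false

open Set

namespace Pool.Agent.W560.Coiso

variable {E : Type*} [NormedAddCommGroup E] [NormedSpace ℝ E] {ι : Type*} [Fintype ι]

/-- `∑ exp (N ℓ i x)` -/
noncomputable def expSum (ℓ : ι → E →L[ℝ] ℝ) (N : ℝ) (x : E) : ℝ := ∑ i, Real.exp (N * ℓ i x)

/-- the soft maximum `log (∑ exp (N ℓ i x)) / N` -/
noncomputable def softMax (ℓ : ι → E →L[ℝ] ℝ) (N : ℝ) (x : E) : ℝ :=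
  Real.log (expSum ℓ N x) / N

/-- the weights of the soft maximum -/
noncomputable def wt (ℓ : ι → E →L[ℝ] ℝ) (N : ℝ) (x : E) (i : ι) : ℝ :=
  Real.exp (N * ℓ i x) / expSum ℓ N x

variable (ℓ : ι → E →L[ℝ] ℝ) (N : ℝ)

theorem expSum_pos [Nonempty ι] (x : E) : 0 < expSum ℓ N x :=
  Finset.sum_pos (fun i _ => Real.exp_pos _) Finset.univ_nonempty

theorem wt_nonneg (x : E) (i : ι) : 0 ≤ wt ℓ N x i :=
  div_nonneg (Real.exp_pos _).le (Finset.sum_nonneg fun i _ => (Real.exp_pos _).le)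

theorem sum_wt [Nonempty ι] (x : E) : ∑ i, wt ℓ N x i = 1 := by
  simp only [wt]
  rw [← Finset.sum_div]
  exact div_self (expSum_pos ℓ N x).ne'

theorem wt_pos [Nonempty ι] (x : E) (i : ι) : 0 < wt ℓ N x i :=
  div_pos (Real.exp_pos _) (expSum_pos ℓ N x)

theorem continuous_wt [Nonempty ι] (i : ι) : Continuous fun x => wt ℓ N x i := by
  unfold wt
  refine Continuous.div (by fun_prop) ?_ fun x => (expSum_pos ℓ N x).ne'
  unfold expSum
  fun_prop

theorem contDiff_softMax [Nonempty ι] {n : WithTop ℕ∞} : ContDiff ℝ n (softMax ℓ N) := by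
  unfold softMax
  refine ContDiff.div_const (ContDiff.log ?_ fun x => (expSum_pos ℓ N x).ne') _
  unfold expSum
  exact ContDiff.sum fun i _ => Real.contDiff_exp.comp (contDiff_const.mul (ℓ i).contDiff)

theorem hasFDerivAt_softMax [Nonempty ι] (hN : N ≠ 0) (x : E) :
    HasFDerivAt (softMax ℓ N) (∑ i, wt ℓ N x i • ℓ i) x := by
  have h1 : HasFDerivAt (expSum ℓ N) (∑ i, Real.exp (N * ℓ i x) • (N • ℓ i)) x := by
    unfold expSum
    refine HasFDerivAt.fun_sum fun i _ => ?_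
    exact HasFDerivAt.exp ((ℓ i).hasFDerivAt.const_mul N)
  have h2 := (h1.log (expSum_pos ℓ N x).ne').mul_const (N⁻¹)
  have h3 : (softMax ℓ N) = fun y => Real.log (expSum ℓ N y) * N⁻¹ := by
    funext y; rw [softMax, div_eq_mul_inv]
  rw [h3]
  refine h2.congr_fderiv ?_
  ext v
  simp only [wt, ContinuousLinearMap.smul_apply, ContinuousLinearMap.sum_apply, smul_eq_mul]
  rw [Finset.mul_sum, Finset.mul_sum]
  refine Finset.sum_congr rfl fun i _ => ?_
  field_simp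

theorem le_softMax [Nonempty ι] (hN : 0 < N) (x : E) (i : ι) : ℓ i x ≤ softMax ℓ N x := by
  rw [softMax, le_div_iff₀ hN, Real.le_log_iff_exp_le (expSum_pos ℓ N x), mul_comm]
  exact Finset.single_le_sum (f := fun i => Real.exp (N * ℓ i x))
    (fun j _ => (Real.exp_pos _).le) (Finset.mem_univ i)

theorem log_wt [Nonempty ι] (hN : 0 < N) (x : E) (i : ι) :
    Real.log (wt ℓ N x i) = N * (ℓ i x - softMax ℓ N x) := by
  rw [wt, Real.log_div (Real.exp_pos _).ne' (expSum_pos ℓ N x).ne', Real.log_exp, softMax]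
  field_simp

theorem sum_wt_le [Nonempty ι] (hN : 0 < N) (x : E) :
    ∑ i, wt ℓ N x i * ℓ i x ≤ softMax ℓ N x := by
  calc ∑ i, wt ℓ N x i * ℓ i x ≤ ∑ i, wt ℓ N x i * softMax ℓ N x :=
        Finset.sum_le_sum fun i _ => mul_le_mul_of_nonneg_left (le_softMax ℓ N hN x i)
          (wt_nonneg ℓ N x i)
    _ = softMax ℓ N x := by rw [← Finset.sum_mul, sum_wt, one_mul]

theorem le_sum_wt [Nonempty ι] (hN : 0 < N) (x : E) :
    softMax ℓ N x - Fintype.card ι / N ≤ ∑ i, wt ℓ N x i * ℓ i x := by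
  have h1 : ∀ i, wt ℓ N x i * softMax ℓ N x - 1 / N ≤ wt ℓ N x i * ℓ i x := by
    intro i
    have hw := wt_pos ℓ N x i
    have h2 := Real.log_le_sub_one_of_pos (inv_pos.2 hw)
    rw [Real.log_inv, log_wt ℓ N hN x i] at h2
    have h3 : wt ℓ N x i * -(N * (ℓ i x - softMax ℓ N x)) ≤ wt ℓ N x i * ((wt ℓ N x i)⁻¹ - 1) :=
      mul_le_mul_of_nonneg_left h2 hw.le
    have h4 : wt ℓ N x i * ((wt ℓ N x i)⁻¹ - 1) ≤ 1 := by
      rw [mul_sub, mul_inv_cancel₀ hw.ne']; linarith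
    have h5 : N * (wt ℓ N x i * softMax ℓ N x - wt ℓ N x i * ℓ i x) ≤ 1 := by
      nlinarith
    have h6 : wt ℓ N x i * softMax ℓ N x - wt ℓ N x i * ℓ i x ≤ 1 / N := by
      rw [le_div_iff₀ hN]; linarith
    linarith
  have h7 := Finset.sum_le_sum fun i (_ : i ∈ Finset.univ) => h1 i
  rw [Finset.sum_sub_distrib, ← Finset.sum_mul, sum_wt, one_mul] at h7
  simpa [Finset.card_univ, div_eq_mul_inv] using h7

theorem softMax_zero (hN : 0 < N) :
    softMax ℓ N 0 = Real.log (Fintype.card ι) / N := by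
  simp [softMax, expSum, Finset.card_univ]

end Pool.Agent.W560.Coiso
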