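import Mathlib

/-!
# A smooth profile with controlled slope
-/

set_option autoImplicit false

open Set
open scoped ContDiff

namespace Pool.Agent.W560.Coiso

theorem exists_profile {κ ε : ℝ} (hκ : 0 < κ) (hε : 0 < ε) (hε' : ε < 1 / 4) :
    ∃ (Φ φ : ℝ → ℝ) (m : ℝ), ContDiff ℝ ∞ Φ ∧ (∀ s, HasDerivAt Φ (φ s) s) ∧ (∀ s, 0 ≤ φ s) ∧
      (∀ s, φ s ≠ 0 → ε < s ∧ s < 1 - ε) ∧ (∀ s, 0 ≤ s → φ s ≤ 2 * κ * s) ∧
      (∀ s, s ≤ ε → Φ s = 0) ∧ (∀ s, 1 - ε ≤ s → Φ s = m) ∧ κ * (1 - 4 * ε) ≤ m ∧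
      ∀ s, 0 ≤ Φ s ∧ Φ s ≤ m := by
  let χ : ContDiffBump (1 / 2 : ℝ) := ⟨1 / 2 - 2 * ε, 1 / 2 - ε, by linarith, by linarith⟩
  let φ : ℝ → ℝ := fun r => 2 * κ * r * χ r
  have hχc : ContDiff ℝ ∞ (fun r => χ r) := χ.contDiff
  have hφc : ContDiff ℝ ∞ φ := (contDiff_const.mul contDiff_id).mul hχc
  have hφcont : Continuous φ := hφc.continuous
  have hχ0 : ∀ r, χ r ≠ 0 → ε < r ∧ r < 1 - ε := by
    intro r hr
    by_contra hcon
    apply hr
    refine χ.zero_of_le_dist ?_
    show 1 / 2 - ε ≤ dist r (1 / 2)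
    rw [Real.dist_eq]
    rw [not_and_or, not_lt, not_lt] at hcon
    rcases hcon with h | h
    · have := neg_abs_le (r - 1 / 2); linarith
    · have := le_abs_self (r - 1 / 2); linarith
  have hφ0 : ∀ r, φ r ≠ 0 → ε < r ∧ r < 1 - ε := by
    intro r hr
    exact hχ0 r fun h => hr (by simp [φ, h])
  have hφnn : ∀ r, 0 ≤ φ r := by
    intro r
    by_cases h : φ r = 0
    · rw [h]
    · have := (hφ0 r h).1
      have h2 : 0 ≤ r := by linarith
      exact mul_nonneg (by positivity) χ.nonneg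
  let Φ : ℝ → ℝ := fun s => ∫ r in (0 : ℝ)..s, φ r
  have hΦd : ∀ s, HasDerivAt Φ (φ s) s := fun s =>
    intervalIntegral.integral_hasDerivAt_right (hφcont.intervalIntegrable _ _)
      (hφcont.stronglyMeasurableAtFilter _ _) hφcont.continuousAt
  have hΦdiff : Differentiable ℝ Φ := fun s => (hΦd s).differentiableAt
  have hΦderiv : deriv Φ = φ := funext fun s => (hΦd s).deriv
  have hΦmono : Monotone Φ := monotone_of_deriv_nonneg hΦdiff (by rw [hΦderiv]; exact hφnn)
  have hconst : ∀ a b : ℝ, a ≤ b → (∀ r ∈ Icc a b, φ r = 0) → Φ a = Φ b := by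
    intro a b hab h
    have h1 : Φ b - Φ a = ∫ r in a..b, φ r :=
      intervalIntegral.integral_interval_sub_left (hφcont.intervalIntegrable _ _)
        (hφcont.intervalIntegrable _ _)
    have h2 : ∫ r in a..b, φ r = ∫ r in a..b, (0 : ℝ) :=
      intervalIntegral.integral_congr fun r hr => by
        rw [uIcc_of_le hab] at hr; exact h r hr
    rw [h2, intervalIntegral.integral_zero] at h1
    linarith
  have hΦ0 : Φ 0 = 0 := intervalIntegral.integral_same
  have hz : ∀ r, r ≤ ε → φ r = 0 := fun r hr => by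
    by_contra h; have := (hφ0 r h).1; linarith
  have hz' : ∀ r, 1 - ε ≤ r → φ r = 0 := fun r hr => by
    by_contra h; have := (hφ0 r h).2; linarith
  have hlow : ∀ s, s ≤ ε → Φ s = 0 := by
    intro s hs
    rcases le_total 0 s with h | h
    · rw [← hconst 0 s h fun r hr => hz r (hr.2.trans hs), hΦ0]
    · rw [hconst s 0 h fun r hr => hz r (hr.2.trans hε.le), hΦ0]
  have hup : ∀ s, 1 - ε ≤ s → Φ s = Φ (1 - ε) := fun s hs =>
    (hconst (1 - ε) s hs fun r hr => hz' r hr.1).symm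
  refine ⟨Φ, φ, Φ (1 - ε), ?_, hΦd, hφnn, hφ0, ?_, hlow, hup, ?_, ?_⟩
  · rw [contDiff_infty_iff_deriv]
    exact ⟨hΦdiff, by rw [hΦderiv]; exact hφc⟩
  · intro s hs
    have h1 : χ s ≤ 1 := χ.le_one
    have h2 : 0 ≤ 2 * κ * s := by positivity
    calc φ s = 2 * κ * s * χ s := rfl
      _ ≤ 2 * κ * s * 1 := mul_le_mul_of_nonneg_left h1 h2
      _ = 2 * κ * s := mul_one _
  · -- lower bound of the total increase
    have h1 : Φ (1 - 2 * ε) - Φ (2 * ε) = ∫ r in (2 * ε)..(1 - 2 * ε), φ r :=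
      intervalIntegral.integral_interval_sub_left (hφcont.intervalIntegrable _ _)
        (hφcont.intervalIntegrable _ _)
    have h2 : ∫ r in (2 * ε)..(1 - 2 * ε), φ r = ∫ r in (2 * ε)..(1 - 2 * ε), 2 * κ * r := by
      refine intervalIntegral.integral_congr fun r hr => ?_
      rw [uIcc_of_le (by linarith)] at hr
      have h3 : χ r = 1 := by
        refine χ.one_of_mem_closedBall ?_
        show dist r (1 / 2) ≤ 1 / 2 - 2 * ε
        rw [Real.dist_eq, abs_le]
        constructor <;> linarith [hr.1, hr.2]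
      simp [φ, h3]
    have h4 : ∫ r in (2 * ε)..(1 - 2 * ε), 2 * κ * r = κ * (1 - 4 * ε) := by
      rw [intervalIntegral.integral_const_mul, integral_id]
      ring
    have h5 : 0 ≤ Φ (2 * ε) := by
      rw [← hΦ0]; exact hΦmono (by linarith)
    have h6 : Φ (1 - 2 * ε) ≤ Φ (1 - ε) := hΦmono (by linarith)
    linarith
  · intro s
    constructor
    · rcases le_total s ε with h | h
      · rw [hlow s h]
      · have := hΦmono h
        rwa [hlow ε le_rfl] at this
    · rcases le_total s (1 - ε) with h | h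
      · exact hΦmono h
      · exact (hup s h).le

end Pool.Agent.W560.Coiso
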