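import Pool.Agent.W560.Coiso.Defs
import Pool.Agent.W560.Coiso.Core
import Pool.Agent.W560.Coiso.LSE
import Pool.Agent.W560.Coiso.Profile

/-!
# A lower bound for the capacity of a Lagrangian product of polytopes
-/

set_option autoImplicit false

open Set MeasureTheory
open scoped Matrix ContDiff

namespace Pool.Agent.W560.Coiso

variable {k : ℕ} {I J : Type} [Fintype I] [Fintype J] (κ : I → Fin (k + 1) → ℝ)
  (τ : J → Fin (k + 1) → ℝ)

/-- The Lagrangian product of the polytopes `κ i ⬝ q ≤ 1` and `τ j ⬝ p ≤ 1`. -/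
def body (κ : I → Fin (k + 1) → ℝ) (τ : J → Fin (k + 1) → ℝ) : Set (Phase (k + 1)) :=
  {x | (∀ i, κ i ⬝ᵥ x.1 ≤ 1) ∧ ∀ j, τ j ⬝ᵥ x.2 ≤ 1}

/-- all the functionals -/
noncomputable def ell : I ⊕ J → Phase (k + 1) →L[ℝ] ℝ :=
  Sum.elim
    (fun i => (∑ m, κ i m • (ContinuousLinearMap.proj m : (Fin (k + 1) → ℝ) →L[ℝ] ℝ)).comp
      (ContinuousLinearMap.fst ℝ (Fin (k + 1) → ℝ) (Fin (k + 1) → ℝ)))
    (fun j => (∑ m, τ j m • (ContinuousLinearMap.proj m : (Fin (k + 1) → ℝ) →L[ℝ] ℝ)).comp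
      (ContinuousLinearMap.snd ℝ (Fin (k + 1) → ℝ) (Fin (k + 1) → ℝ)))

theorem ell_inl (i : I) (x : Phase (k + 1)) : ell κ τ (Sum.inl i) x = κ i ⬝ᵥ x.1 := by
  simp [ell, dotProduct]

theorem ell_inr (j : J) (x : Phase (k + 1)) : ell κ τ (Sum.inr j) x = τ j ⬝ᵥ x.2 := by
  simp [ell, dotProduct]

theorem mem_body_iff (x : Phase (k + 1)) : x ∈ body κ τ ↔ ∀ i, ell κ τ i x ≤ 1 := by
  constructor
  · rintro ⟨h1, h2⟩ (i | j)
    · rw [ell_inl]; exact h1 i
    · rw [ell_inr]; exact h2 j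
  · intro h
    exact ⟨fun i => by rw [← ell_inl κ τ]; exact h _, fun j => by rw [← ell_inr κ τ]; exact h _⟩

theorem body_eq : body κ τ = ⋂ i, {x | ell κ τ i x ≤ 1} := by
  ext x; rw [mem_body_iff]; simp

theorem convex_body : Convex ℝ (body κ τ) := by
  rw [body_eq]
  refine convex_iInter fun i => ?_
  exact convex_halfSpace_le (ell κ τ i).isLinear 1

theorem isClosed_body : IsClosed (body κ τ) := by
  rw [body_eq]
  exact isClosed_iInter fun i => isClosed_le (ell κ τ i).continuous continuous_const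

theorem isOpen_strict : IsOpen {x : Phase (k + 1) | ∀ i, ell κ τ i x < 1} := by
  have : {x : Phase (k + 1) | ∀ i, ell κ τ i x < 1} = ⋂ i, {x | ell κ τ i x < 1} := by
    ext x; simp
  rw [this]
  exact isOpen_iInter_of_finite fun i => isOpen_lt (ell κ τ i).continuous continuous_const

theorem subset_interior : {x : Phase (k + 1) | ∀ i, ell κ τ i x < 1} ⊆ interior (body κ τ) :=
  interior_maximal (fun x hx => (mem_body_iff κ τ x).2 fun i => (hx i).le) (isOpen_strict κ τ)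

theorem zero_mem_interior : (0 : Phase (k + 1)) ∈ interior (body κ τ) :=
  subset_interior κ τ fun i => by rw [map_zero]; exact one_pos

theorem uniqueDiffOn_body : UniqueDiffOn ℝ (body κ τ) :=
  uniqueDiffOn_convex (convex_body κ τ) ⟨0, zero_mem_interior κ τ⟩

/-- the gradient of the soft maximum, in the `q` and the `p` directions -/
theorem hamField_eq [Nonempty I] {N : ℝ} (hN : N ≠ 0) {Φ φ : ℝ → ℝ}
    (hΦ : ∀ s, HasDerivAt Φ (φ s) s) {x : Phase (k + 1)} (hx : x ∈ body κ τ) :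
    hamField (body κ τ) (fun y => Φ (softMax (ell κ τ) N y)) x =
      (∑ j, (φ (softMax (ell κ τ) N x) * wt (ell κ τ) N x (Sum.inr j)) • τ j,
        -∑ i, (φ (softMax (ell κ τ) N x) * wt (ell κ τ) N x (Sum.inl i)) • κ i) := by
  have h1 : HasFDerivAt (fun y => Φ (softMax (ell κ τ) N y))
      (φ (softMax (ell κ τ) N x) • ∑ i, wt (ell κ τ) N x i • ell κ τ i) x :=
    (hΦ _).comp_hasFDerivAt x (hasFDerivAt_softMax (ell κ τ) N hN x)
  have h2 := h1.hasFDerivWithinAt.fderivWithin (uniqueDiffOn_body κ τ x hx)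
  rw [hamField, h2]
  have h3 : ∀ v : Phase (k + 1),
      (φ (softMax (ell κ τ) N x) • ∑ i, wt (ell κ τ) N x i • ell κ τ i) v =
      (∑ i, φ (softMax (ell κ τ) N x) * wt (ell κ τ) N x (Sum.inl i) * (κ i ⬝ᵥ v.1)) +
        ∑ j, φ (softMax (ell κ τ) N x) * wt (ell κ τ) N x (Sum.inr j) * (τ j ⬝ᵥ v.2) := by
    intro v
    rw [_root_.smul_apply, _root_.sum_apply, Fintype.sum_sum_type, smul_eq_mul,
      mul_add, Finset.mul_sum, Finset.mul_sum]
    simp only [_root_.smul_apply, smul_eq_mul, ell_inl, ell_inr, mul_assoc]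
  refine Prod.ext ?_ ?_
  · funext m
    show (φ (softMax (ell κ τ) N x) • ∑ i, wt (ell κ τ) N x i • ell κ τ i)
      ((0, Pi.single m 1) : Phase (k + 1)) = _
    rw [h3]
    simp [Finset.sum_apply]
  · funext m
    show -(φ (softMax (ell κ τ) N x) • ∑ i, wt (ell κ τ) N x i • ell κ τ i)
      ((Pi.single m 1, 0) : Phase (k + 1)) = _
    rw [h3]
    simp [Finset.sum_apply]

/-- The isoperimetric property: a path of `q`'s whose end points lie on one leaf and whose
velocity is `∑ β j τ j` lies in a translate of the `q`-polytope scaled by `(∫ ∑ β j) / c`. -/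
def Iso (κ : I → Fin (k + 1) → ℝ) (τ : J → Fin (k + 1) → ℝ) (c : ℝ) : Prop :=
  ∀ (T : ℝ) (q : ℝ → Fin (k + 1) → ℝ) (β : J → ℝ → ℝ), 0 ≤ T →
    (∀ j, ContinuousOn (β j) (Icc 0 T)) → (∀ j, ∀ t ∈ Icc 0 T, 0 ≤ β j t) →
    ContinuousOn q (Icc 0 T) → (∀ t ∈ Ioo 0 T, HasDerivAt q (∑ j, β j t • τ j) t) →
    (∀ i, i ≠ Fin.last k → q T i = q 0 i) →
    ∃ v : Fin (k + 1) → ℝ, ∀ t ∈ Icc 0 T, ∀ i,
      κ i ⬝ᵥ (q t + v) ≤ (∫ t in (0 : ℝ)..T, ∑ j, β j t) / c

/-- the soft maximum is constant along orbits -/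
theorem softMax_const [Nonempty I] {N : ℝ} (hN : N ≠ 0) {Φ φ : ℝ → ℝ}
    (hΦ : ∀ s, HasDerivAt Φ (φ s) s) {γ : ℝ → Phase (k + 1)}
    (hγ : IsOrbit (body κ τ) (fun y => Φ (softMax (ell κ τ) N y)) γ) {t : ℝ} (ht : 0 ≤ t) :
    softMax (ell κ τ) N (γ t) = softMax (ell κ τ) N (γ 0) := by
  have hcont : ContinuousOn (fun s => softMax (ell κ τ) N (γ s)) (Icc 0 t) := by
    intro s hs
    have h1 := ((hγ s hs.1).2.continuousWithinAt).mono
      (Icc_subset_Ici_self : Icc (0 : ℝ) t ⊆ Ici 0)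
    exact (hasFDerivAt_softMax (ell κ τ) N hN (γ s)).continuousAt.comp_continuousWithinAt h1
  refine constant_of_has_deriv_right_zero hcont (fun s hs => ?_) t ⟨ht, le_rfl⟩
  have h1 := (hγ s hs.1).2.mono (Ici_subset_Ici.2 hs.1)
  have h2 := (hasFDerivAt_softMax (ell κ τ) N hN (γ s)).comp_hasDerivWithinAt s h1
  refine h2.congr_deriv ?_
  rw [hamField_eq κ τ hN hΦ (hγ s hs.1).1, _root_.sum_apply,
    Fintype.sum_sum_type]
  simp only [_root_.smul_apply, smul_eq_mul, ell_inl, ell_inr]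
  set σ := φ (softMax (ell κ τ) N (γ s))
  set w := wt (ell κ τ) N (γ s)
  have e1 : ∑ i, w (Sum.inl i) * (κ i ⬝ᵥ ∑ j, (σ * w (Sum.inr j)) • τ j) =
      ∑ i, ∑ j, σ * (w (Sum.inl i) * w (Sum.inr j) * (κ i ⬝ᵥ τ j)) := by
    refine Finset.sum_congr rfl fun i _ => ?_
    rw [dotProduct_sum, Finset.mul_sum]
    refine Finset.sum_congr rfl fun j _ => ?_
    rw [dotProduct_smul, smul_eq_mul]; ring
  have e2 : ∑ j, w (Sum.inr j) * (τ j ⬝ᵥ -∑ i, (σ * w (Sum.inl i)) • κ i) =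
      -∑ i, ∑ j, σ * (w (Sum.inl i) * w (Sum.inr j) * (κ i ⬝ᵥ τ j)) := by
    have e3 : ∑ i, ∑ j, σ * (w (Sum.inl i) * w (Sum.inr j) * (κ i ⬝ᵥ τ j)) =
        ∑ j, ∑ i, σ * (w (Sum.inl i) * w (Sum.inr j) * (κ i ⬝ᵥ τ j)) := Finset.sum_comm
    rw [e3, eq_neg_iff_add_eq_zero, ← Finset.sum_add_distrib]
    refine Finset.sum_eq_zero fun j _ => ?_
    rw [dotProduct_neg, dotProduct_sum, mul_neg, Finset.mul_sum, neg_add_eq_zero]
    refine Finset.sum_congr rfl fun i _ => ?_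
    rw [dotProduct_smul, smul_eq_mul, dotProduct_comm]; ring
  rw [e1, e2, add_neg_cancel]

/-- the return estimate -/
theorem return_ge [Nonempty I] {c : ℝ} (hc : 0 < c) (hiso : Iso κ τ c) {N : ℝ} (hN : 0 < N)
    {Φ φ : ℝ → ℝ} (hΦ : ∀ s, HasDerivAt Φ (φ s) s) {γ : ℝ → Phase (k + 1)}
    (hγ : IsOrbit (body κ τ) (fun y => Φ (softMax (ell κ τ) N y)) γ)
    (hσ : 0 < φ (softMax (ell κ τ) N (γ 0))) (h0 : γ 0 ∈ hyper k) {T : ℝ} (hT : 0 < T)
    (hleaf : Leaf (γ 0) (γ T)) :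
    2 * c * (softMax (ell κ τ) N (γ 0) - Fintype.card (I ⊕ J) / N) ≤
      φ (softMax (ell κ τ) N (γ 0)) * T := by
  set s₀ := softMax (ell κ τ) N (γ 0) with hs₀
  set σ := φ s₀ with hσdef
  have hL : ∀ t, 0 ≤ t → softMax (ell κ τ) N (γ t) = s₀ := fun t ht =>
    softMax_const κ τ hN.ne' hΦ hγ ht
  let α : I → ℝ → ℝ := fun i t => σ * wt (ell κ τ) N (γ t) (Sum.inl i)
  let β : J → ℝ → ℝ := fun j t => σ * wt (ell κ τ) N (γ t) (Sum.inr j)
  have hγc : ContinuousOn γ (Icc 0 T) := fun t ht =>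
    ((hγ t ht.1).2.continuousWithinAt).mono Icc_subset_Ici_self
  have hαc : ∀ i, ContinuousOn (α i) (Icc 0 T) := fun i =>
    continuousOn_const.mul ((continuous_wt (ell κ τ) N _).comp_continuousOn hγc)
  have hβc : ∀ j, ContinuousOn (β j) (Icc 0 T) := fun j =>
    continuousOn_const.mul ((continuous_wt (ell κ τ) N _).comp_continuousOn hγc)
  have hα0 : ∀ i t, 0 ≤ α i t := fun i t => mul_nonneg hσ.le (wt_nonneg _ _ _ _)
  have hβ0 : ∀ j t, 0 ≤ β j t := fun j t => mul_nonneg hσ.le (wt_nonneg _ _ _ _)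
  have hder : ∀ t ∈ Ioo 0 T, HasDerivAt γ (∑ j, β j t • τ j, -∑ i, α i t • κ i) t := by
    intro t ht
    have h1 := (hγ t ht.1.le).2.hasDerivAt (Ici_mem_nhds ht.1)
    rwa [hamField_eq κ τ hN.ne' hΦ (hγ t ht.1.le).1, hL t ht.1.le] at h1
  have hqc : ContinuousOn (fun t => (γ t).1) (Icc 0 T) := continuous_fst.comp_continuousOn hγc
  have hpc : ContinuousOn (fun t => (γ t).2) (Icc 0 T) := continuous_snd.comp_continuousOn hγc
  have hq : ∀ t ∈ Ioo 0 T, HasDerivAt (fun t => (γ t).1) (∑ j, β j t • τ j) t := fun t ht =>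
    (hder t ht).fst
  have hp : ∀ t ∈ Ioo 0 T, HasDerivAt (fun t => (γ t).2) (-∑ i, α i t • κ i) t := fun t ht =>
    (hder t ht).snd
  obtain ⟨d, hd⟩ := hleaf
  have hd1 : (γ T).1 = (γ 0).1 + d • Pi.single (Fin.last k) 1 := by
    have := congrArg Prod.fst hd
    simp only [Prod.fst_sub, Prod.smul_fst] at this
    rw [← this]; abel
  have hd2 : (γ T).2 = (γ 0).2 := by
    have := congrArg Prod.snd hd
    simp only [Prod.snd_sub, Prod.smul_snd, smul_zero] at this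
    exact sub_eq_zero.1 this
  obtain ⟨v, hv⟩ := hiso T (fun t => (γ t).1) β hT.le hβc (fun j t _ => hβ0 j t) hqc hq
    (fun i hi => by
      show (γ T).1 i = (γ 0).1 i
      rw [hd1]; simp [hi])
  have hcore := core κ τ hT.le (fun t => (γ t).1) (fun t => (γ t).2) α β hαc hβc
    (fun i t _ => hα0 i t) hqc hpc hq hp hd2
    (by
      show (γ T).1 ⬝ᵥ (γ 0).2 = (γ 0).1 ⬝ᵥ (γ 0).2
      have h00 : (γ 0).2 (Fin.last k) = 0 := h0
      rw [hd1, add_dotProduct, smul_dotProduct, single_dotProduct, h00]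
      simp) v _ hv
  have hu : uIcc (0 : ℝ) T = Icc 0 T := uIcc_of_le hT.le
  have ia : IntervalIntegrable (fun t => ∑ i, α i t) volume 0 T :=
    ContinuousOn.intervalIntegrable (by rw [hu]; exact continuousOn_finsetSum _ fun i _ => hαc i)
  have ib : IntervalIntegrable (fun t => ∑ j, β j t) volume 0 T :=
    ContinuousOn.intervalIntegrable (by rw [hu]; exact continuousOn_finsetSum _ fun i _ => hβc i)
  have hsum : (∫ t in (0 : ℝ)..T, ∑ i, α i t) + ∫ t in (0 : ℝ)..T, ∑ j, β j t = σ * T := by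
    rw [← intervalIntegral.integral_add ia ib]
    have : ∀ t, (∑ i, α i t) + ∑ j, β j t = σ := by
      intro t
      rw [← Finset.mul_sum, ← Finset.mul_sum, ← mul_add, ← Fintype.sum_sum_type, sum_wt, mul_one]
    simp only [this]
    rw [intervalIntegral.integral_const]
    simp [mul_comm]
  have hlow : σ * T * (s₀ - Fintype.card (I ⊕ J) / N) ≤
      ∫ t in (0 : ℝ)..T, ((∑ i, α i t * (κ i ⬝ᵥ (γ t).1)) + ∑ j, β j t * (τ j ⬝ᵥ (γ t).2)) := by
    have h1 : ∫ t in (0 : ℝ)..T, σ * (s₀ - Fintype.card (I ⊕ J) / N) =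
        σ * T * (s₀ - Fintype.card (I ⊕ J) / N) := by
      rw [intervalIntegral.integral_const, smul_eq_mul]; ring
    rw [← h1]
    refine intervalIntegral.integral_mono_on hT.le (by simp) ?_ fun t ht => ?_
    · refine ContinuousOn.intervalIntegrable ?_
      rw [hu]
      exact (continuousOn_finsetSum _ fun i _ =>
        (hαc i).mul (continuousOn_dot continuousOn_const hqc)).add
        (continuousOn_finsetSum _ fun i _ =>
        (hβc i).mul (continuousOn_dot continuousOn_const hpc))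
    · have h2 := le_sum_wt (ell κ τ) N hN (γ t)
      rw [hL t ht.1, Fintype.sum_sum_type] at h2
      simp only [ell_inl, ell_inr] at h2
      have h3 := mul_le_mul_of_nonneg_left h2 hσ.le
      rw [mul_add, Finset.mul_sum, Finset.mul_sum] at h3
      simpa only [α, β, mul_assoc] using h3
  set X := ∫ t in (0 : ℝ)..T, ∑ i, α i t
  set Y := ∫ t in (0 : ℝ)..T, ∑ j, β j t
  have hσT : 0 < σ * T := mul_pos hσ hT
  have h4 : σ * T * (s₀ - Fintype.card (I ⊕ J) / N) ≤ 2 * (Y / c * X) := hlow.trans hcore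
  have h5 : 2 * c * (σ * T * (s₀ - Fintype.card (I ⊕ J) / N)) ≤ (σ * T) * (σ * T) := by
    have h6 : 2 * c * (2 * (Y / c * X)) = 4 * (X * Y) := by
      field_simp; ring
    have h7 : 2 * c * (σ * T * (s₀ - Fintype.card (I ⊕ J) / N)) ≤ 2 * c * (2 * (Y / c * X)) :=
      mul_le_mul_of_nonneg_left h4 (by positivity)
    rw [h6] at h7
    rw [← hsum]
    nlinarith [sq_nonneg (X - Y)]
  have h8 : (σ * T) * (2 * c * (s₀ - Fintype.card (I ⊕ J) / N)) ≤ (σ * T) * (σ * T) := by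
    calc (σ * T) * (2 * c * (s₀ - Fintype.card (I ⊕ J) / N))
        = 2 * c * (σ * T * (s₀ - Fintype.card (I ⊕ J) / N)) := by ring
      _ ≤ _ := h5
  exact le_of_mul_le_mul_left h8 hσT

/-- the Hamiltonian is admissible -/
theorem exists_admissible [Nonempty I] (hcomp : IsCompact (body κ τ)) {c : ℝ} (hc : 0 < c)
    (hiso : Iso κ τ c) {m₀ : ℝ} (hm₀ : m₀ < c) :
    ∃ (m : ℝ) (H : Phase (k + 1) → ℝ), m₀ ≤ m ∧ IsSimple (body κ τ) H m ∧
      IsAdmissible (body κ τ) H := by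
  obtain ⟨ε, hε, hε8, hεm⟩ : ∃ ε : ℝ, 0 < ε ∧ ε ≤ 1 / 8 ∧ 5 * c * ε ≤ c - m₀ := by
    refine ⟨min (1 / 8) ((c - m₀) / (5 * c)), lt_min (by norm_num) (div_pos (by linarith)
      (by positivity)), min_le_left _ _, ?_⟩
    calc 5 * c * min (1 / 8) ((c - m₀) / (5 * c)) ≤ 5 * c * ((c - m₀) / (5 * c)) :=
          mul_le_mul_of_nonneg_left (min_le_right _ _) (by positivity)
      _ = c - m₀ := by field_simp
  obtain ⟨Φ, φ, m, hΦs, hΦ, hφ0, hφne, hφle, hΦlow, hΦup, hm, hΦr⟩ :=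
    exists_profile (κ := c * (1 - ε)) (ε := ε) (mul_pos hc (by linarith)) hε (by linarith)
  have hM : (0 : ℝ) < (Fintype.card (I ⊕ J) : ℝ) := by exact_mod_cast Fintype.card_pos
  set M : ℝ := ((Fintype.card (I ⊕ J) : ℕ) : ℝ) with hMdef
  set N : ℝ := 2 * M / ε ^ 2 with hNdef
  have hN : 0 < N := by positivity
  have hMN : M / N = ε ^ 2 / 2 := by rw [hNdef]; field_simp
  have hL0 : softMax (ell κ τ) N 0 < ε := by
    rw [softMax_zero _ _ hN, ← hMdef]
    have h1 : Real.log M ≤ M := (Real.log_le_sub_one_of_pos hM).trans (by linarith)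
    have h2 : Real.log M / N ≤ M / N := div_le_div_of_nonneg_right h1 hN.le
    nlinarith
  have hcont : Continuous (softMax (ell κ τ) N) := (contDiff_softMax (ell κ τ) N (n := 0)).continuous
  have h0h : (0 : Phase (k + 1)) ∈ hyper k := by simp [hyper]
  refine ⟨m, fun y => Φ (softMax (ell κ τ) N y), ?_, ⟨?_, ?_, ?_, fun x _ => hΦr _⟩, ?_⟩
  · refine le_trans ?_ hm
    nlinarith
  · exact (hΦs.comp (contDiff_softMax (ell κ τ) N)).contDiffOn
  · refine ⟨{x | softMax (ell κ τ) N x ≤ 1 - ε}, ?_, ?_, ⟨0, ?_, h0h⟩, ?_⟩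
    · refine hcomp.of_isClosed_subset (isClosed_le hcont continuous_const) fun x hx => ?_
      exact (mem_body_iff κ τ x).2 fun i => (le_softMax (ell κ τ) N hN x i).trans
        (le_trans hx (by linarith))
    · exact fun x hx => subset_interior κ τ fun i => lt_of_le_of_lt
        (le_softMax (ell κ τ) N hN x i) (lt_of_le_of_lt hx (by linarith))
    · show softMax (ell κ τ) N 0 ≤ 1 - ε
      linarith
    · intro x hx
      have : ¬ softMax (ell κ τ) N x ≤ 1 - ε := hx.2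
      exact hΦup _ (not_le.1 this).le
  · refine ⟨{x | softMax (ell κ τ) N x < ε}, isOpen_lt hcont continuous_const,
      ⟨0, hL0, interior_subset (zero_mem_interior κ τ), h0h⟩, fun x hx => hΦlow _ ?_⟩
    exact (show softMax (ell κ τ) N x < ε from hx.1).le
  · intro γ hγ h0
    by_cases hz : φ (softMax (ell κ τ) N (γ 0)) = 0
    · left
      intro t ht
      have hγc : ContinuousOn γ (Icc 0 t) := fun s hs =>
        ((hγ s hs.1).2.continuousWithinAt).mono Icc_subset_Ici_self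
      refine constant_of_has_deriv_right_zero hγc (fun s hs => ?_) t ⟨ht, le_rfl⟩
      have h1 := (hγ s hs.1).2.mono (Ici_subset_Ici.2 hs.1)
      rw [hamField_eq κ τ hN.ne' hΦ (hγ s hs.1).1,
        softMax_const κ τ hN.ne' hΦ hγ hs.1, hz] at h1
      have h2 : HasDerivWithinAt γ ((0, 0) : Phase (k + 1)) (Ici s) s := by simpa using h1
      exact h2
    · right
      have hs := hφne _ hz
      have hpos : 0 < φ (softMax (ell κ τ) N (γ 0)) := lt_of_le_of_ne (hφ0 _) (Ne.symm hz)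
      have hkey : ((1 + ε / 2 : ℝ) : EReal) ≤ returnTime (body κ τ) γ := by
        refine le_sInf ?_
        rintro _ ⟨t, rfl, ht, -, hleaf⟩
        rw [EReal.coe_le_coe_iff]
        have h1 := return_ge κ τ hc hiso hN hΦ hγ hpos h0.2 ht hleaf
        have h2 := hφle _ (by linarith [hs.1] : (0 : ℝ) ≤ softMax (ell κ τ) N (γ 0))
        rw [← hMdef, hMN] at h1
        set s := softMax (ell κ τ) N (γ 0)
        have h3 : φ s * t ≤ 2 * (c * (1 - ε)) * s * t := mul_le_mul_of_nonneg_right h2 ht.le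
        have hs0 : 0 < s := by linarith [hs.1]
        have h4 : 2 * c * (s - ε ^ 2 / 2) ≤ 2 * (c * (1 - ε)) * s * t := h1.trans h3
        have h5 : s - ε ^ 2 / 2 ≤ (1 - ε) * s * t := by
          have : 2 * c * (s - ε ^ 2 / 2) ≤ 2 * c * ((1 - ε) * s * t) := by
            calc _ ≤ _ := h4
              _ = _ := by ring
          exact le_of_mul_le_mul_left this (by positivity)
        have h6 : s * (1 - ε / 2) ≤ s * ((1 - ε) * t) := by nlinarith [hs.1]
        have h7 : 1 - ε / 2 ≤ (1 - ε) * t := le_of_mul_le_mul_left h6 hs0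
        have h8 : (1 - ε) * (1 + ε / 2) ≤ (1 - ε) * t := by nlinarith
        exact le_of_mul_le_mul_left h8 (by linarith)
      refine lt_of_lt_of_le ?_ hkey
      have : (1 : ℝ) < 1 + ε / 2 := by linarith
      exact_mod_cast this

/-- The isoperimetric constant bounds the capacity from below. -/
theorem le_cLR [Nonempty I] (hcomp : IsCompact (body κ τ)) {c : ℝ} (hc : 0 < c)
    (hiso : Iso κ τ c) : ENNReal.ofReal c ≤ cLR (body κ τ) := by
  by_contra hcon
  rw [not_le, ENNReal.lt_iff_exists_real_btwn] at hcon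
  obtain ⟨r, hr0, hr1, hr2⟩ := hcon
  have hrc : r < c := (ENNReal.ofReal_lt_ofReal_iff hc).1 hr2
  obtain ⟨m, H, hm, hs, ha⟩ := exists_admissible κ τ hcomp hc hiso hrc
  have h1 : ENNReal.ofReal m ≤ cLR (body κ τ) := le_iSup₂_of_le m ⟨H, hs, ha⟩ le_rfl
  exact absurd ((ENNReal.ofReal_le_ofReal hm).trans h1) (not_le.2 hr1)

end Pool.Agent.W560.Coiso
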