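import Pool.Agent.W560.Coiso.Planar

/-!
# Volumes of the pentagon, the bipyramid and the prism
-/

set_option autoImplicit false

open Set MeasureTheory
open scoped ENNReal Pointwise

namespace Pool.Agent.W560.Coiso

/-- the pentagon in `ℝ × ℝ` -/
def pent : Set (ℝ × ℝ) := {z | z.1 + z.2 ≤ 1 ∧ (psi - 1) * z.1 + z.2 ≤ 1 ∧
  -2 * psi * z.1 + (psi - 1) * z.2 ≤ 1 ∧ (psi - 1) * z.1 + -2 * psi * z.2 ≤ 1 ∧
  z.1 + (psi - 1) * z.2 ≤ 1}

theorem measurableSet_pent : MeasurableSet pent := by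
  have h1 : IsClosed {z : ℝ × ℝ | z.1 + z.2 ≤ 1} := isClosed_le (by fun_prop) (by fun_prop)
  have h2 : IsClosed {z : ℝ × ℝ | (psi - 1) * z.1 + z.2 ≤ 1} :=
    isClosed_le (by fun_prop) (by fun_prop)
  have h3 : IsClosed {z : ℝ × ℝ | -2 * psi * z.1 + (psi - 1) * z.2 ≤ 1} :=
    isClosed_le (by fun_prop) (by fun_prop)
  have h4 : IsClosed {z : ℝ × ℝ | (psi - 1) * z.1 + -2 * psi * z.2 ≤ 1} :=
    isClosed_le (by fun_prop) (by fun_prop)
  have h5 : IsClosed {z : ℝ × ℝ | z.1 + (psi - 1) * z.2 ≤ 1} :=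
    isClosed_le (by fun_prop) (by fun_prop)
  exact (h1.inter (h2.inter (h3.inter (h4.inter h5)))).measurableSet

theorem lintegral_affine {a b α β : ℝ} (hab : a ≤ b) (hnn : ∀ x ∈ Icc a b, 0 ≤ α + β * x) :
    ∫⁻ x in Icc a b, ENNReal.ofReal (α + β * x) =
      ENNReal.ofReal (α * (b - a) + β * (b ^ 2 - a ^ 2) / 2) := by
  rw [← ofReal_integral_eq_lintegral_ofReal]
  · congr 1
    rw [integral_Icc_eq_integral_Ioc, ← intervalIntegral.integral_of_le hab,
      intervalIntegral.integral_add (by simp) (by apply Continuous.intervalIntegrable; fun_prop),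
      intervalIntegral.integral_const, intervalIntegral.integral_const_mul, integral_id]
    simp only [smul_eq_mul]; ring
  · exact (by fun_prop : Continuous fun x => α + β * x).continuousOn.integrableOn_compact
      isCompact_Icc
  · exact (ae_restrict_iff' measurableSet_Icc).2 (Filter.Eventually.of_forall hnn)

theorem slab_volume {S : Set (ℝ × ℝ)} (hS : MeasurableSet S) {a b α β : ℝ} (hab : a ≤ b)
    (hnn : ∀ x ∈ Icc a b, 0 ≤ α + β * x)
    (h : ∀ x ∈ Icc a b, ∃ lo up : ℝ, up - lo ≤ α + β * x ∧ ∀ y, (x, y) ∈ S → lo ≤ y ∧ y ≤ up) :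
    volume (S ∩ (Icc a b ×ˢ univ)) ≤ ENNReal.ofReal (α * (b - a) + β * (b ^ 2 - a ^ 2) / 2) := by
  rw [← lintegral_affine hab hnn, Measure.volume_eq_prod,
    Measure.prod_apply (hS.inter (measurableSet_Icc.prod MeasurableSet.univ)),
    ← lintegral_indicator measurableSet_Icc]
  refine lintegral_mono fun x => ?_
  by_cases hx : x ∈ Icc a b
  · rw [indicator_of_mem hx]
    obtain ⟨lo, up, h1, h2⟩ := h x hx
    calc volume (Prod.mk x ⁻¹' (S ∩ (Icc a b ×ˢ univ))) ≤ volume (Icc lo up) :=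
          measure_mono fun y hy => h2 y hy.1
      _ = ENNReal.ofReal (up - lo) := Real.volume_Icc
      _ ≤ _ := ENNReal.ofReal_le_ofReal h1
  · rw [indicator_of_notMem hx]
    have : Prod.mk x ⁻¹' (S ∩ (Icc a b ×ˢ univ)) = ∅ := by
      ext y; simp [hx]
    rw [this, measure_empty]

theorem volume_pent : volume pent ≤ ENNReal.ofReal (5 / 2) := by
  have hp := psi_gt
  have hp' := psi_lt
  have hpp := psi_mul_self
  have sq : ∀ z : ℝ, psi * (psi * z) = z - psi * z := fun z => by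
    rw [← mul_assoc, psi_mul_self]; ring
  -- the five half planes as bounds for `y`
  have up0 : ∀ x y : ℝ, (x, y) ∈ pent → y ≤ 1 - x := fun x y h => by linarith [h.1]
  have up1 : ∀ x y : ℝ, (x, y) ∈ pent → y ≤ 1 + (1 - psi) * x := fun x y h => by
    have := h.2.1; simp only at this; linarith
  have lo2 : ∀ x y : ℝ, (x, y) ∈ pent → -(2 + psi) - (2 + 2 * psi) * x ≤ y := fun x y h => by
    have := h.2.2.1; simp only at this
    have h1 := mul_nonneg (by linarith : (0 : ℝ) ≤ 2 + psi) (sub_nonneg.2 this)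
    linarith [sq x, sq y]
  have lo3 : ∀ x y : ℝ, (x, y) ∈ pent → -(1 + psi) / 2 - psi / 2 * x ≤ y := fun x y h => by
    have := h.2.2.2.1; simp only at this
    have h1 := mul_nonneg (by linarith : (0 : ℝ) ≤ 1 + psi) (sub_nonneg.2 this)
    linarith [sq x, sq y]
  have lo4 : ∀ x y : ℝ, (x, y) ∈ pent → (2 + psi) * (x - 1) ≤ y := fun x y h => by
    have := h.2.2.2.2; simp only at this
    have h1 := mul_nonneg (by linarith : (0 : ℝ) ≤ 2 + psi) (sub_nonneg.2 this)
    linarith [sq x, sq y]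
  have v1 := slab_volume measurableSet_pent (a := -1) (b := -psi) (α := 3 + psi) (β := 3 + psi)
    (by linarith) (fun x hx => by nlinarith [hx.1]) (fun x hx =>
      ⟨-(2 + psi) - (2 + 2 * psi) * x, 1 + (1 - psi) * x, by linarith, fun y hy =>
        ⟨lo2 x y hy, up1 x y hy⟩⟩)
  have v2 := slab_volume measurableSet_pent (a := -psi) (b := 0) (α := (3 + psi) / 2)
    (β := 1 - psi / 2) (by linarith) (fun x hx => by nlinarith [hx.1]) (fun x hx =>
      ⟨-(1 + psi) / 2 - psi / 2 * x, 1 + (1 - psi) * x, by linarith, fun y hy =>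
        ⟨lo3 x y hy, up1 x y hy⟩⟩)
  have v3 := slab_volume measurableSet_pent (a := 0) (b := psi) (α := (3 + psi) / 2)
    (β := -(1 - psi / 2)) (by linarith) (fun x hx => by nlinarith [hx.2]) (fun x hx =>
      ⟨-(1 + psi) / 2 - psi / 2 * x, 1 - x, by linarith, fun y hy =>
        ⟨lo3 x y hy, up0 x y hy⟩⟩)
  have v4 := slab_volume measurableSet_pent (a := psi) (b := 1) (α := 3 + psi)
    (β := -(3 + psi)) (by linarith) (fun x hx => by nlinarith [hx.2]) (fun x hx =>
      ⟨(2 + psi) * (x - 1), 1 - x, by linarith, fun y hy =>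
        ⟨lo4 x y hy, up0 x y hy⟩⟩)
  have hsub : pent ⊆ ((pent ∩ (Icc (-1) (-psi) ×ˢ univ)) ∪ (pent ∩ (Icc (-psi) 0 ×ˢ univ))) ∪
      ((pent ∩ (Icc 0 psi ×ˢ univ)) ∪ (pent ∩ (Icc psi 1 ×ˢ univ))) := by
    rintro ⟨x, y⟩ h
    have b1 : x ≤ 1 := by
      have h1 := lo4 x y h; have h2 := up0 x y h
      nlinarith
    have b2 : -1 ≤ x := by
      have h1 := lo2 x y h; have h2 := up1 x y h
      nlinarith
    rcases le_total x 0 with h0 | h0
    · rcases le_total x (-psi) with h3 | h3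
      · exact Or.inl (Or.inl ⟨h, ⟨b2, h3⟩, trivial⟩)
      · exact Or.inl (Or.inr ⟨h, ⟨h3, h0⟩, trivial⟩)
    · rcases le_total x psi with h3 | h3
      · exact Or.inr (Or.inl ⟨h, ⟨h0, h3⟩, trivial⟩)
      · exact Or.inr (Or.inr ⟨h, ⟨h3, b1⟩, trivial⟩)
  refine (measure_mono hsub).trans ((measure_union_le _ _).trans ((add_le_add
    ((measure_union_le _ _).trans (add_le_add v1 v2))
    ((measure_union_le _ _).trans (add_le_add v3 v4))).trans ?_))
  rw [← ENNReal.ofReal_add, ← ENNReal.ofReal_add, ← ENNReal.ofReal_add]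
  · refine ENNReal.ofReal_le_ofReal ?_
    nlinarith
  all_goals nlinarith

/-- the five inequalities with right hand side `r` -/
def pentR (r : ℝ) : Set (ℝ × ℝ) := {z | z.1 + z.2 ≤ r ∧ (psi - 1) * z.1 + z.2 ≤ r ∧
  -2 * psi * z.1 + (psi - 1) * z.2 ≤ r ∧ (psi - 1) * z.1 + -2 * psi * z.2 ≤ r ∧
  z.1 + (psi - 1) * z.2 ≤ r}

theorem pentR_x {r x y : ℝ} (h : (x, y) ∈ pentR r) : x ≤ r ∧ -r ≤ x := by
  have hp := psi_gt
  have hp' := psi_lt
  have sq : ∀ z : ℝ, psi * (psi * z) = z - psi * z := fun z => by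
    rw [← mul_assoc, psi_mul_self]; ring
  obtain ⟨h0, h1, h2, h3, h4⟩ := h
  simp only at h0 h1 h2 h3 h4
  constructor
  · have e1 := mul_nonneg (by linarith : (0 : ℝ) ≤ 1 - psi) (sub_nonneg.2 h0)
    have e2 : 0 ≤ (2 - psi) * (r - x) := by linarith
    have := nonneg_of_mul_nonneg_right e2 (by linarith : (0 : ℝ) < 2 - psi)
    linarith
  · have e1 := mul_nonneg (by linarith : (0 : ℝ) ≤ 1 - psi) (sub_nonneg.2 h1)
    have e2 : 0 ≤ (1 + psi) * (r + x) := by
      have h5 := mul_nonneg (by linarith : (0 : ℝ) ≤ 1 - psi) (sub_nonneg.2 h1)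
      -- `(2 + ψ) f₂ + f₁` has no `y` term
      have h6 := mul_nonneg (by linarith : (0 : ℝ) ≤ 2 + psi) (sub_nonneg.2 h2)
      have h7 : 0 ≤ (3 + psi) * (r + x) := by linarith [sq x, sq y]
      have h8 := nonneg_of_mul_nonneg_right h7 (by linarith : (0 : ℝ) < 3 + psi)
      exact mul_nonneg (by linarith) h8
    have := nonneg_of_mul_nonneg_right e2 (by linarith : (0 : ℝ) < 1 + psi)
    linarith

theorem volume_pentR {r : ℝ} (hr : 0 ≤ r) :
    volume (pentR r) ≤ ENNReal.ofReal (r ^ 2) * volume pent := by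
  rcases hr.eq_or_lt with h0 | hpos
  · have hsub : pentR r ⊆ {(0 : ℝ × ℝ)} := by
      rintro ⟨x, y⟩ h
      have hx := pentR_x h
      rw [← h0] at hx h
      have hx0 : x = 0 := by linarith [hx.1, hx.2]
      obtain ⟨h1, h2, h3, h4, h5⟩ := h
      simp only [hx0] at h1 h2 h3 h4 h5
      have hy0 : y = 0 := by nlinarith [psi_gt, psi_lt]
      simp [hx0, hy0]
    refine (measure_mono hsub).trans ?_
    simp
  · have hsub : pentR r ⊆ r • pent := by
      rintro ⟨x, y⟩ h
      refine mem_smul_set.2 ⟨(r⁻¹ * x, r⁻¹ * y), ?_, ?_⟩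
      · obtain ⟨h1, h2, h3, h4, h5⟩ := h
        simp only at h1 h2 h3 h4 h5
        have hi : 0 < r⁻¹ := inv_pos.2 hpos
        have hrr : r⁻¹ * r = 1 := inv_mul_cancel₀ hpos.ne'
        have e1 := mul_le_mul_of_nonneg_left h1 hi.le
        have e2 := mul_le_mul_of_nonneg_left h2 hi.le
        have e3 := mul_le_mul_of_nonneg_left h3 hi.le
        have e4 := mul_le_mul_of_nonneg_left h4 hi.le
        have e5 := mul_le_mul_of_nonneg_left h5 hi.le
        rw [hrr] at e1 e2 e3 e4 e5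
        refine ⟨?_, ?_, ?_, ?_, ?_⟩ <;> simp only <;> linarith
      · simp only [Prod.smul_mk, smul_eq_mul, ← mul_assoc, mul_inv_cancel₀ hpos.ne', one_mul]
    refine (measure_mono hsub).trans ?_
    rw [Measure.addHaar_smul]
    have : Module.finrank ℝ (ℝ × ℝ) = 2 := by simp
    rw [this, abs_of_nonneg (by positivity)]

/-- the map `q ↦ (q 2, (q 0, q 1))` -/
def perm3 (q : Fin 3 → ℝ) : ℝ × (ℝ × ℝ) := (q 2, (q 0, q 1))

theorem perm3_measurePreserving : MeasurePreserving perm3 volume volume := by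
  have h1 := volume_preserving_piFinSuccAbove (fun _ : Fin 3 => ℝ) 2
  have h2 := (MeasurePreserving.id (volume : Measure ℝ)).prod (volume_preserving_finTwoArrow ℝ)
  have h3 := h2.comp h1
  have e : (Prod.map id (MeasurableEquiv.finTwoArrow : (Fin 2 → ℝ) ≃ᵐ ℝ × ℝ) ∘
      (MeasurableEquiv.piFinSuccAbove (fun _ : Fin 3 => ℝ) 2)) = perm3 := by
    funext q
    rfl
  rw [e] at h3
  exact h3

theorem lintegral_sq1 : ∫⁻ z in Icc (0 : ℝ) 1, ENNReal.ofReal ((1 - z) ^ 2) =
    ENNReal.ofReal (1 / 3) := by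
  rw [← ofReal_integral_eq_lintegral_ofReal]
  · congr 1
    rw [integral_Icc_eq_integral_Ioc, ← intervalIntegral.integral_of_le zero_le_one,
      intervalIntegral.integral_comp_sub_left (fun x => x ^ 2) 1, integral_pow]
    norm_num
  · exact (by fun_prop : Continuous fun z : ℝ => (1 - z) ^ 2).continuousOn.integrableOn_compact
      isCompact_Icc
  · exact Filter.Eventually.of_forall fun z => sq_nonneg _

theorem lintegral_sq2 : ∫⁻ z in Icc (-1 : ℝ) 0, ENNReal.ofReal ((1 + z) ^ 2) =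
    ENNReal.ofReal (1 / 3) := by
  rw [← ofReal_integral_eq_lintegral_ofReal]
  · congr 1
    rw [integral_Icc_eq_integral_Ioc, ← intervalIntegral.integral_of_le (by norm_num),
      intervalIntegral.integral_comp_add_left (fun x => x ^ 2) 1, integral_pow]
    norm_num
  · exact (by fun_prop : Continuous fun z : ℝ => (1 + z) ^ 2).continuousOn.integrableOn_compact
      isCompact_Icc
  · exact Filter.Eventually.of_forall fun z => sq_nonneg _

/-- the bipyramid has volume at most `5/3` -/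
theorem volume_bipyramid {S : Set (Fin 3 → ℝ)}
    (hS : ∀ q ∈ S, (q 0, q 1) ∈ pentR (1 - |q 2|)) : volume S ≤ ENNReal.ofReal (5 / 3) := by
  set B : Set (ℝ × (ℝ × ℝ)) := {w | w.2 ∈ pentR (1 - |w.1|)} with hB
  have hBc : IsClosed B := by
    have h1 : IsClosed {w : ℝ × (ℝ × ℝ) | w.2.1 + w.2.2 ≤ 1 - |w.1|} :=
      isClosed_le (by fun_prop) (by fun_prop)
    have h2 : IsClosed {w : ℝ × (ℝ × ℝ) | (psi - 1) * w.2.1 + w.2.2 ≤ 1 - |w.1|} :=
      isClosed_le (by fun_prop) (by fun_prop)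
    have h3 : IsClosed {w : ℝ × (ℝ × ℝ) |
        -2 * psi * w.2.1 + (psi - 1) * w.2.2 ≤ 1 - |w.1|} :=
      isClosed_le (by fun_prop) (by fun_prop)
    have h4 : IsClosed {w : ℝ × (ℝ × ℝ) |
        (psi - 1) * w.2.1 + -2 * psi * w.2.2 ≤ 1 - |w.1|} :=
      isClosed_le (by fun_prop) (by fun_prop)
    have h5 : IsClosed {w : ℝ × (ℝ × ℝ) | w.2.1 + (psi - 1) * w.2.2 ≤ 1 - |w.1|} :=
      isClosed_le (by fun_prop) (by fun_prop)
    exact h1.inter (h2.inter (h3.inter (h4.inter h5)))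
  have hsub : S ⊆ perm3 ⁻¹' B := fun q hq => hS q hq
  refine (measure_mono hsub).trans ?_
  rw [perm3_measurePreserving.measure_preimage hBc.measurableSet.nullMeasurableSet,
    Measure.volume_eq_prod, Measure.prod_apply hBc.measurableSet]
  have hle : ∀ z : ℝ, volume (Prod.mk z ⁻¹' B) ≤
      (Icc (-1 : ℝ) 0).indicator (fun z => ENNReal.ofReal ((1 + z) ^ 2) * volume pent) z +
      (Icc (0 : ℝ) 1).indicator (fun z => ENNReal.ofReal ((1 - z) ^ 2) * volume pent) z := by
    intro z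
    have hpre : Prod.mk z ⁻¹' B = pentR (1 - |z|) := rfl
    rw [hpre]
    by_cases hz : |z| ≤ 1
    · rw [abs_le] at hz
      have h1 := volume_pentR (r := 1 - |z|) (by rw [sub_nonneg]; exact abs_le.2 hz)
      rcases le_total z 0 with h0 | h0
      · refine le_trans ?_ le_self_add
        rw [indicator_of_mem (show z ∈ Icc (-1 : ℝ) 0 from ⟨hz.1, h0⟩)]
        rw [abs_of_nonpos h0, sub_neg_eq_add] at h1
        rwa [abs_of_nonpos h0, sub_neg_eq_add]
      · refine le_trans ?_ le_add_self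
        rw [indicator_of_mem (show z ∈ Icc (0 : ℝ) 1 from ⟨h0, hz.2⟩)]
        rw [abs_of_nonneg h0] at h1
        rwa [abs_of_nonneg h0]
    · have : pentR (1 - |z|) = ∅ := by
        rw [eq_empty_iff_forall_notMem]
        rintro ⟨x, y⟩ h
        have := pentR_x h
        rw [not_le] at hz
        linarith [this.1, this.2]
      rw [this, measure_empty]
      exact bot_le
  refine (lintegral_mono hle).trans ?_
  rw [lintegral_add_left (by measurability), lintegral_indicator measurableSet_Icc,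
    lintegral_indicator measurableSet_Icc, lintegral_mul_const _ (by fun_prop),
    lintegral_mul_const _ (by fun_prop), lintegral_sq1, lintegral_sq2]
  rw [← add_mul, ← ENNReal.ofReal_add (by norm_num) (by norm_num)]
  calc ENNReal.ofReal (1 / 3 + 1 / 3) * volume pent
      ≤ ENNReal.ofReal (1 / 3 + 1 / 3) * ENNReal.ofReal (5 / 2) :=
        mul_le_mul_right volume_pent _
    _ = ENNReal.ofReal (5 / 3) := by
        rw [← ENNReal.ofReal_mul (by norm_num)]; norm_num

/-- the half prism has volume at most `a · (5/2) ψ²` -/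
theorem volume_prism {S : Set (Fin 3 → ℝ)} {a : ℝ} (ha : 0 ≤ a)
    (hS : ∀ p ∈ S, InT (p 0) (p 1) ∧ 0 ≤ p 2 ∧ p 2 ≤ a) :
    volume S ≤ ENNReal.ofReal (a * (5 / 2 * psi ^ 2)) := by
  have hp := psi_gt
  -- rotation by a right angle
  have hR : MeasurePreserving (fun z : ℝ × ℝ => (-z.2, z.1)) volume volume := by
    have h1 : MeasurePreserving (Prod.swap : ℝ × ℝ → ℝ × ℝ) volume volume :=
      Measure.measurePreserving_swap
    have h2 : MeasurePreserving (Prod.map (fun x : ℝ => -x) id : ℝ × ℝ → ℝ × ℝ) volume volume :=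
      (Measure.measurePreserving_neg (volume : Measure ℝ)).prod
        (MeasurePreserving.id (volume : Measure ℝ))
    exact h2.comp h1
  have hpc : IsClosed pent := by
    have h1 : IsClosed {z : ℝ × ℝ | z.1 + z.2 ≤ 1} := isClosed_le (by fun_prop) (by fun_prop)
    have h2 : IsClosed {z : ℝ × ℝ | (psi - 1) * z.1 + z.2 ≤ 1} :=
      isClosed_le (by fun_prop) (by fun_prop)
    have h3 : IsClosed {z : ℝ × ℝ | -2 * psi * z.1 + (psi - 1) * z.2 ≤ 1} :=
      isClosed_le (by fun_prop) (by fun_prop)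
    have h4 : IsClosed {z : ℝ × ℝ | (psi - 1) * z.1 + -2 * psi * z.2 ≤ 1} :=
      isClosed_le (by fun_prop) (by fun_prop)
    have h5 : IsClosed {z : ℝ × ℝ | z.1 + (psi - 1) * z.2 ≤ 1} :=
      isClosed_le (by fun_prop) (by fun_prop)
    exact h1.inter (h2.inter (h3.inter (h4.inter h5)))
  have hpsi0 : psi ≠ 0 := by linarith
  have hsc : IsClosed (psi • pent) := hpc.smul_of_ne_zero hpsi0
  set Q : Set (ℝ × ℝ) := (fun z : ℝ × ℝ => (-z.2, z.1)) ⁻¹' (psi • pent) with hQ
  have hQm : MeasurableSet Q := hsc.measurableSet.preimage (by fun_prop)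
  have hQv : volume Q ≤ ENNReal.ofReal (5 / 2 * psi ^ 2) := by
    rw [hQ, hR.measure_preimage hsc.measurableSet.nullMeasurableSet, Measure.addHaar_smul]
    have : Module.finrank ℝ (ℝ × ℝ) = 2 := by simp
    rw [this, abs_of_nonneg (by positivity)]
    calc ENNReal.ofReal (psi ^ 2) * volume pent
        ≤ ENNReal.ofReal (psi ^ 2) * ENNReal.ofReal (5 / 2) := mul_le_mul_right volume_pent _
      _ = ENNReal.ofReal (5 / 2 * psi ^ 2) := by
          rw [← ENNReal.ofReal_mul (by positivity), mul_comm]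
  have hsub : S ⊆ perm3 ⁻¹' (Icc 0 a ×ˢ Q) := by
    intro p hp'
    obtain ⟨⟨h0, h1, h2, h3, h4⟩, h5, h6⟩ := hS p hp'
    refine ⟨⟨h5, h6⟩, ?_⟩
    show ((-(p 1), p 0) : ℝ × ℝ) ∈ psi • pent
    have hpp := psi_mul_self
    have sq : ∀ z : ℝ, psi * (psi * z) = z - psi * z := fun z => by
      rw [← mul_assoc, psi_mul_self]; ring
    refine mem_smul_set.2 ⟨(-((1 + psi) * p 1), (1 + psi) * p 0), ?_, ?_⟩
    · refine ⟨?_, ?_, ?_, ?_, ?_⟩ <;> simp only <;> linarith [sq (p 0), sq (p 1)]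
    · simp only [Prod.smul_mk, smul_eq_mul, Prod.mk.injEq]
      constructor <;> linarith [sq (p 0), sq (p 1)]
  refine (measure_mono hsub).trans ?_
  rw [perm3_measurePreserving.measure_preimage
    (measurableSet_Icc.prod hQm).nullMeasurableSet, Measure.volume_eq_prod, Measure.prod_prod,
    Real.volume_Icc, sub_zero, ENNReal.ofReal_mul ha]
  exact mul_le_mul_right hQv _

end Pool.Agent.W560.Coiso
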