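import Pool.Agent.W560.Coiso.Flow
import Pool.Agent.W560.Coiso.Vol

/-!
# The isoperimetric property of the bipyramid and the prism over the pentagons
-/

set_option autoImplicit false

open Set MeasureTheory
open scoped Matrix

namespace Pool.Agent.W560.Coiso

/-- the facets of the bipyramid over the pentagon `K` -/
noncomputable def facetQ : Fin 10 → Fin 3 → ℝ :=
  ![![1, 1, 1], ![1, 1, -1], ![psi - 1, 1, 1], ![psi - 1, 1, -1],
    ![-2 * psi, psi - 1, 1], ![-2 * psi, psi - 1, -1], ![psi - 1, -2 * psi, 1],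
    ![psi - 1, -2 * psi, -1], ![1, psi - 1, 1], ![1, psi - 1, -1]]

/-- the facets of the prism over the pentagon `T`, of height `2 · 11/10` -/
noncomputable def facetP : Fin 7 → Fin 3 → ℝ :=
  ![![1 + psi, -(1 + psi), 0], ![1 + psi, psi, 0], ![-psi, 2, 0], ![-2, psi, 0],
    ![-psi, -(1 + psi), 0], ![0, 0, 10 / 11], ![0, 0, -(10 / 11)]]

theorem path_le {T : ℝ} {F F' G : ℝ → ℝ} (hF : ContinuousOn F (Icc 0 T))
    (hd : ∀ t ∈ Ioo 0 T, HasDerivAt F (F' t) t) (hF' : ContinuousOn F' (Icc 0 T))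
    (hG : ContinuousOn G (Icc 0 T)) (hle : ∀ t ∈ Icc 0 T, F' t ≤ G t) {s t : ℝ}
    (hs : 0 ≤ s) (hst : s ≤ t) (ht : t ≤ T) :
    F t - F s ≤ (∫ r in (0 : ℝ)..t, G r) - ∫ r in (0 : ℝ)..s, G r := by
  have hsub : Icc s t ⊆ Icc 0 T := Icc_subset_Icc hs ht
  have hint : ∀ {a b : ℝ} {f : ℝ → ℝ}, ContinuousOn f (Icc 0 T) → 0 ≤ a → a ≤ b → b ≤ T →
      IntervalIntegrable f volume a b := by
    intro a b f hf ha hab hb
    refine ContinuousOn.intervalIntegrable ?_
    rw [uIcc_of_le hab]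
    exact hf.mono (Icc_subset_Icc ha hb)
  have h1 : ∫ r in s..t, F' r = F t - F s :=
    intervalIntegral.integral_eq_sub_of_hasDerivAt_of_le hst (hF.mono hsub)
      (fun r hr => hd r ⟨lt_of_le_of_lt hs hr.1, lt_of_lt_of_le hr.2 ht⟩) (hint hF' hs hst ht)
  rw [intervalIntegral.integral_interval_sub_left (hint hG le_rfl (hs.trans hst) ht)
    (hint hG le_rfl hs (hst.trans ht)), ← h1]
  exact intervalIntegral.integral_mono_on hst (hint hF' hs hst ht) (hint hG hs hst ht)
    fun r hr => hle r (hsub hr)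

theorem iso_facets : Iso facetQ facetP (11 / 5) := by
  intro T q β hT hβc hβ0 hqc hqd hclosed
  have hp := psi_gt
  have hp' := psi_lt
  -- the components of the velocity
  have d0 : ∀ t ∈ Ioo 0 T, HasDerivAt (fun t => q t 0)
      ((1 + psi) * β 0 t + (1 + psi) * β 1 t - psi * β 2 t - 2 * β 3 t - psi * β 4 t) t := by
    intro t ht
    have := hasDerivAt_pi.1 (hqd t ht) 0
    refine this.congr_deriv ?_
    simp [Fin.sum_univ_succ, facetP]
    ring
  have d1 : ∀ t ∈ Ioo 0 T, HasDerivAt (fun t => q t 1)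
      (-(1 + psi) * β 0 t + psi * β 1 t + 2 * β 2 t + psi * β 3 t - (1 + psi) * β 4 t) t := by
    intro t ht
    have := hasDerivAt_pi.1 (hqd t ht) 1
    refine this.congr_deriv ?_
    simp [Fin.sum_univ_succ, facetP]
    ring
  have d2 : ∀ t ∈ Ioo 0 T, HasDerivAt (fun t => q t 2)
      (10 / 11 * (β 5 t - β 6 t)) t := by
    intro t ht
    have := hasDerivAt_pi.1 (hqd t ht) 2
    refine this.congr_deriv ?_
    simp [Fin.sum_univ_succ, facetP]
    ring
  have c0 : ContinuousOn (fun t => q t 0) (Icc 0 T) := continuousOn_pi.1 hqc 0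
  have c1 : ContinuousOn (fun t => q t 1) (Icc 0 T) := continuousOn_pi.1 hqc 1
  have c2 : ContinuousOn (fun t => q t 2) (Icc 0 T) := continuousOn_pi.1 hqc 2
  have b0 := hβc 0
  have b1 := hβc 1
  have b2 := hβc 2
  have b3 := hβc 3
  have b4 := hβc 4
  have b5 := hβc 5
  have b6 := hβc 6
  set G1 : ℝ → ℝ := fun t => β 0 t + β 1 t + β 2 t + β 3 t + β 4 t with hG1
  set G2 : ℝ → ℝ := fun t => β 5 t + β 6 t with hG2
  have hG1c : ContinuousOn G1 (Icc 0 T) := by fun_prop
  have hG2c : ContinuousOn G2 (Icc 0 T) := by fun_prop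
  set L1 := ∫ t in (0 : ℝ)..T, G1 t with hL1
  set L2 := ∫ t in (0 : ℝ)..T, G2 t with hL2
  have hG1i : IntervalIntegrable G1 volume 0 T :=
    ContinuousOn.intervalIntegrable (by rwa [uIcc_of_le hT])
  have hG2i : IntervalIntegrable G2 volume 0 T :=
    ContinuousOn.intervalIntegrable (by rwa [uIcc_of_le hT])
  have hL : ∫ t in (0 : ℝ)..T, ∑ j, β j t = L1 + L2 := by
    rw [hL1, hL2, ← intervalIntegral.integral_add hG1i hG2i]
    congr 1
    funext t
    simp [Fin.sum_univ_succ, hG1, hG2]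
    ring
  have hL1n : 0 ≤ L1 := intervalIntegral.integral_nonneg hT fun t ht => by
    have h0 := hβ0 0 t ht; have h1 := hβ0 1 t ht; have h2 := hβ0 2 t ht
    have h3 := hβ0 3 t ht; have h4 := hβ0 4 t ht
    simp only [hG1]; linarith
  -- the planar part
  have hcurve : Curve T (fun t => q t 0) (fun t => q t 1) (fun t => ∫ r in (0 : ℝ)..t, G1 r) := by
    refine ⟨hT, hclosed 0 (by decide), hclosed 1 (by decide), ?_⟩
    rintro u v ⟨i0, i1, i2, i3, i4⟩ s t hs hst ht
    have h := path_le (T := T) (F := fun t => u * q t 0 + v * q t 1)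
      (F' := fun t => u * ((1 + psi) * β 0 t + (1 + psi) * β 1 t - psi * β 2 t - 2 * β 3 t -
        psi * β 4 t) + v * (-(1 + psi) * β 0 t + psi * β 1 t + 2 * β 2 t + psi * β 3 t -
        (1 + psi) * β 4 t)) (G := G1) (by fun_prop)
      (fun t ht => ((d0 t ht).const_mul u).add ((d1 t ht).const_mul v)) (by fun_prop) hG1c
      (fun t ht => by
        have h0 := mul_nonneg (hβ0 0 t ht) (sub_nonneg.2 i0)
        have h1 := mul_nonneg (hβ0 1 t ht) (sub_nonneg.2 i1)
        have h2 := mul_nonneg (hβ0 2 t ht) (sub_nonneg.2 i2)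
        have h3 := mul_nonneg (hβ0 3 t ht) (sub_nonneg.2 i3)
        have h4 := mul_nonneg (hβ0 4 t ht) (sub_nonneg.2 i4)
        simp only [hG1]; linarith) hs hst ht
    linarith
  have h5 : (0 : ℝ) < 1 + 2 * psi := by linarith
  obtain ⟨v, w, hvw⟩ := hcurve.cover c0 c1 (r := L1 / (1 + 2 * psi)) (by
    rw [mul_div_cancel₀ _ h5.ne']
    simp [hL1])
  -- the last coordinate
  have hz : ∀ s ∈ Icc 0 T, ∀ t ∈ Icc 0 T, q t 2 - q s 2 ≤ 10 / 11 * L2 := by
    have hmono : ∀ s t : ℝ, 0 ≤ s → s ≤ t → t ≤ T →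
        q t 2 - q s 2 ≤ 10 / 11 * L2 ∧ q s 2 - q t 2 ≤ 10 / 11 * L2 := by
      intro s t hs hst ht
      have e1 := path_le (T := T) (F := fun t => q t 2) (F' := fun t => 10 / 11 * (β 5 t - β 6 t))
        (G := fun t => 10 / 11 * G2 t) c2 d2 (by fun_prop) (by fun_prop) (fun t ht => by
          have h0 := hβ0 5 t ht; have h1 := hβ0 6 t ht
          simp only [hG2]; linarith) hs hst ht
      have e2 := path_le (T := T) (F := fun t => -q t 2)
        (F' := fun t => -(10 / 11 * (β 5 t - β 6 t)))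
        (G := fun t => 10 / 11 * G2 t) c2.neg (fun t ht => (d2 t ht).neg) (by fun_prop)
        (by fun_prop) (fun t ht => by
          have h0 := hβ0 5 t ht; have h1 := hβ0 6 t ht
          simp only [hG2]; linarith) hs hst ht
      have hint : ∀ {a b : ℝ}, 0 ≤ a → a ≤ b → b ≤ T → IntervalIntegrable G2 volume a b := by
        intro a b ha hab hb
        refine ContinuousOn.intervalIntegrable ?_
        rw [uIcc_of_le hab]
        exact hG2c.mono (Icc_subset_Icc ha hb)
      have hnn : ∀ {a b : ℝ}, 0 ≤ a → a ≤ b → b ≤ T → 0 ≤ ∫ r in a..b, G2 r := by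
        intro a b ha hab hb
        refine intervalIntegral.integral_nonneg hab fun r hr => ?_
        have hr' : r ∈ Icc 0 T := ⟨ha.trans hr.1, hr.2.trans hb⟩
        have h0 := hβ0 5 r hr'; have h1 := hβ0 6 r hr'
        simp only [hG2]; linarith
      have e3 : (∫ r in (0 : ℝ)..t, G2 r) + ∫ r in t..T, G2 r = L2 :=
        intervalIntegral.integral_add_adjacent_intervals (hint le_rfl (hs.trans hst) ht)
          (hint (hs.trans hst) ht le_rfl)
      have e4 := hnn (hs.trans hst) ht le_rfl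
      have e5 := hnn le_rfl hs (hst.trans ht)
      rw [intervalIntegral.integral_const_mul, intervalIntegral.integral_const_mul] at e1 e2
      constructor <;> linarith
    intro s hs t ht
    rcases le_total s t with h | h
    · exact (hmono s t hs.1 h ht.2).1
    · exact (hmono t s ht.1 h hs.2).2
  have hne : (Icc (0 : ℝ) T).Nonempty := ⟨0, le_rfl, hT⟩
  obtain ⟨ta, hta, hmax⟩ := isCompact_Icc.exists_isMaxOn hne c2
  obtain ⟨tb, htb, hmin⟩ := isCompact_Icc.exists_isMinOn hne c2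
  have hab := hz tb htb ta hta
  refine ⟨![v, w, -(q ta 2 + q tb 2) / 2], fun t ht i => ?_⟩
  have hlast : |q t 2 + -(q ta 2 + q tb 2) / 2| ≤ 5 / 11 * L2 := by
    have h1 : q t 2 ≤ q ta 2 := hmax ht
    have h2 : q tb 2 ≤ q t 2 := hmin ht
    rw [abs_le]; constructor <;> linarith
  have hdiv : L1 / (1 + 2 * psi) + 5 / 11 * L2 ≤ (L1 + L2) / (11 / 5) := by
    have : L1 / (1 + 2 * psi) ≤ L1 / (11 / 5) :=
      div_le_div_of_nonneg_left hL1n (by norm_num) (by linarith)
    have h2 : (L1 + L2) / (11 / 5) = L1 / (11 / 5) + 5 / 11 * L2 := by ring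
    linarith
  rw [hL]
  refine le_trans ?_ hdiv
  obtain ⟨k0, k1, k2, k3, k4⟩ := hvw t ht
  have a1 := (abs_le.1 hlast).2
  have a2 := (abs_le.1 hlast).1
  fin_cases i <;>
    simp [facetQ, dotProduct, Fin.sum_univ_succ] <;> linarith

end Pool.Agent.W560.Coiso
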