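import Mathlib

/-!
# Closed curves and translates of a pentagon

The pentagon `K = {x : f i x ≤ 1}` of the plane, the pentagon `T` (the rotated and scaled `K`), and
the statement that a closed curve of `T`-length `L` lies in a translate of `(L / √5) K`.
-/

set_option autoImplicit false

open Set

namespace Pool.Agent.W560.Coiso

/-- `ψ = (√5 - 1) / 2`, the inverse of the golden ratio. -/
noncomputable def psi : ℝ := (Real.sqrt 5 - 1) / 2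

theorem psi_sq : psi ^ 2 = 1 - psi := by
  have h : Real.sqrt 5 ^ 2 = 5 := Real.sq_sqrt (by norm_num)
  unfold psi
  nlinarith [h]

theorem psi_mul_self : psi * psi = 1 - psi := by
  rw [← psi_sq]; ring

theorem psi_gt : (0.618 : ℝ) < psi := by
  have h : (2.236 : ℝ) < Real.sqrt 5 := by
    rw [Real.lt_sqrt (by norm_num)]; norm_num
  unfold psi; linarith

theorem psi_lt : psi < (0.6181 : ℝ) := by
  have h : Real.sqrt 5 < (2.2362 : ℝ) := by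
    rw [Real.sqrt_lt' (by norm_num)]; norm_num
  unfold psi; linarith

theorem sqrt5_eq : Real.sqrt 5 = 1 + 2 * psi := by
  unfold psi; ring

/-- Feasibility of the five inequalities, by elimination. -/
theorem feasible (b0 b1 b2 b3 b4 : ℝ)
    (h0 : 0 ≤ b0 + psi * b2 + psi * b3)
    (h1 : 0 ≤ b1 + psi * b3 + psi * b4)
    (h2 : 0 ≤ b2 + psi * b4 + psi * b0)
    (h3 : 0 ≤ b3 + psi * b0 + psi * b1)
    (h4 : 0 ≤ b4 + psi * b1 + psi * b2) :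
    ∃ x y : ℝ, x + y ≤ b0 ∧ (psi - 1) * x + y ≤ b1 ∧ -2 * psi * x + (psi - 1) * y ≤ b2 ∧
      (psi - 1) * x + -2 * psi * y ≤ b3 ∧ x + (psi - 1) * y ≤ b4 := by
  have hp : 0 ≤ psi := by linarith [psi_gt]
  have sq : ∀ z : ℝ, psi * (psi * z) = z - psi * z := fun z => by
    rw [← mul_assoc, psi_mul_self]; ring
  obtain ⟨c0, hc0⟩ : ∃ c, c = psi * b0 := ⟨_, rfl⟩
  obtain ⟨c1, hc1⟩ : ∃ c, c = psi * b1 := ⟨_, rfl⟩
  obtain ⟨c2, hc2⟩ : ∃ c, c = psi * b2 := ⟨_, rfl⟩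
  obtain ⟨c3, hc3⟩ : ∃ c, c = psi * b3 := ⟨_, rfl⟩
  obtain ⟨c4, hc4⟩ : ∃ c, c = psi * b4 := ⟨_, rfl⟩
  have s0 : 0 ≤ c0 + (b2 - c2) + (b3 - c3) := by
    have := mul_nonneg hp h0
    rw [mul_add, mul_add, sq, sq] at this
    subst hc0 hc2 hc3; linarith
  have s1 : 0 ≤ c1 + (b3 - c3) + (b4 - c4) := by
    have := mul_nonneg hp h1
    rw [mul_add, mul_add, sq, sq] at this
    subst hc1 hc3 hc4; linarith
  have s2 : 0 ≤ c2 + (b4 - c4) + (b0 - c0) := by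
    have := mul_nonneg hp h2
    rw [mul_add, mul_add, sq, sq] at this
    subst hc2 hc4 hc0; linarith
  have s3 : 0 ≤ c3 + (b0 - c0) + (b1 - c1) := by
    have := mul_nonneg hp h3
    rw [mul_add, mul_add, sq, sq] at this
    subst hc3 hc0 hc1; linarith
  have s4 : 0 ≤ c4 + (b1 - c1) + (b2 - c2) := by
    have := mul_nonneg hp h4
    rw [mul_add, mul_add, sq, sq] at this
    subst hc4 hc1 hc2; linarith
  rw [← hc2, ← hc3] at h0
  rw [← hc3, ← hc4] at h1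
  rw [← hc4, ← hc0] at h2
  rw [← hc0, ← hc1] at h3
  rw [← hc1, ← hc2] at h4
  -- the three lower and the three upper bounds for `x`, in the basis `b, c`
  -- `(1+2ψ)(2+ψ) = 2 + 5ψ + 2ψ² = 4 + 3ψ`, `(3+ψ)(1+ψ) = 4 + 3ψ`, `(2-ψ)(2+ψ) = 3 + ψ`
  obtain ⟨x, a1, a2, a3, u1, u2, u3⟩ : ∃ x : ℝ,
      -((b0 + 2 * c0) + (4 * b2 + 3 * c2)) / 5 ≤ x ∧
      -((2 * b1 - c1) + (3 * b2 + c2)) / 5 ≤ x ∧
      -((6 * b1 + 2 * c1) + (4 * b3 + 3 * c3)) / 5 ≤ x ∧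
      x ≤ ((6 * b0 + 2 * c0) + (4 * b3 + 3 * c3)) / 5 ∧
      x ≤ ((2 * b0 - c0) + (3 * b4 + c4)) / 5 ∧
      x ≤ ((b1 + 2 * c1) + (4 * b4 + 3 * c4)) / 5 := by
    refine ⟨max (-((b0 + 2 * c0) + (4 * b2 + 3 * c2)) / 5)
      (max (-((2 * b1 - c1) + (3 * b2 + c2)) / 5) (-((6 * b1 + 2 * c1) + (4 * b3 + 3 * c3)) / 5)),
      le_max_left _ _, (le_max_left _ _).trans (le_max_right _ _),
      (le_max_right _ _).trans (le_max_right _ _), ?_, ?_, ?_⟩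
    · refine max_le ?_ (max_le ?_ ?_) <;> linarith
    · refine max_le ?_ (max_le ?_ ?_) <;> linarith
    · refine max_le ?_ (max_le ?_ ?_) <;> linarith
  obtain ⟨z, hz⟩ : ∃ z, z = psi * x := ⟨_, rfl⟩
  have m1 := mul_nonneg hp (sub_nonneg.2 a1)
  have m2 := mul_nonneg hp (sub_nonneg.2 a2)
  have m3 := mul_nonneg hp (sub_nonneg.2 a3)
  have m4 := mul_nonneg hp (sub_nonneg.2 u1)
  have m5 := mul_nonneg hp (sub_nonneg.2 u2)
  have m6 := mul_nonneg hp (sub_nonneg.2 u3)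
  have e0 : psi * c0 = b0 - c0 := by rw [hc0, sq]
  have e1 : psi * c1 = b1 - c1 := by rw [hc1, sq]
  have e2 : psi * c2 = b2 - c2 := by rw [hc2, sq]
  have e3 : psi * c3 = b3 - c3 := by rw [hc3, sq]
  have e4 : psi * c4 = b4 - c4 := by rw [hc4, sq]
  have n1 : -((c0 + 2 * (b0 - c0)) + (4 * c2 + 3 * (b2 - c2))) / 5 ≤ z := by
    linarith [m1, e0, e2, hc0, hc2, hz]
  have n2 : -((2 * c1 - (b1 - c1)) + (3 * c2 + (b2 - c2))) / 5 ≤ z := by
    linarith [m2, e1, e2, hc1, hc2, hz]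
  have n3 : -((6 * c1 + 2 * (b1 - c1)) + (4 * c3 + 3 * (b3 - c3))) / 5 ≤ z := by
    linarith [m3, e1, e3, hc1, hc3, hz]
  have n4 : z ≤ ((6 * c0 + 2 * (b0 - c0)) + (4 * c3 + 3 * (b3 - c3))) / 5 := by
    linarith [m4, e0, e3, hc0, hc3, hz]
  have n5 : z ≤ ((2 * c0 - (b0 - c0)) + (3 * c4 + (b4 - c4))) / 5 := by
    linarith [m5, e0, e4, hc0, hc4, hz]
  have n6 : z ≤ ((c1 + 2 * (b1 - c1)) + (4 * c4 + 3 * (b4 - c4))) / 5 := by
    linarith [m6, e1, e4, hc1, hc4, hz]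
  have hq : 0 ≤ 1 - psi := by linarith [psi_lt]
  have m3' := mul_nonneg hq (sub_nonneg.2 a3)
  have m4' := mul_nonneg hq (sub_nonneg.2 u1)
  have o3 : z - -((6 * c1 + 2 * (b1 - c1)) + (4 * c3 + 3 * (b3 - c3))) / 5 ≤
      x - -((6 * b1 + 2 * c1) + (4 * b3 + 3 * c3)) / 5 := by
    linarith [m3', e1, e3, hc1, hc3, hz]
  have o4 : ((6 * c0 + 2 * (b0 - c0)) + (4 * c3 + 3 * (b3 - c3))) / 5 - z ≤
      ((6 * b0 + 2 * c0) + (4 * b3 + 3 * c3)) / 5 - x := by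
    linarith [m4', e0, e3, hc0, hc3, hz]
  -- bounds for `y`
  obtain ⟨y, l2, l3, l4, v0, v1⟩ : ∃ y : ℝ,
      -(2 * b2 + c2) - (2 * x + 2 * z) ≤ y ∧
      -(b3 + c3) / 2 - z / 2 ≤ y ∧
      (2 * x + z) - (2 * b4 + c4) ≤ y ∧
      y ≤ b0 - x ∧ y ≤ b1 + x - z := by
    refine ⟨max (-(2 * b2 + c2) - (2 * x + 2 * z)) (max (-(b3 + c3) / 2 - z / 2)
      ((2 * x + z) - (2 * b4 + c4))),
      le_max_left _ _, (le_max_left _ _).trans (le_max_right _ _),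
      (le_max_right _ _).trans (le_max_right _ _), ?_, ?_⟩
    · refine max_le ?_ (max_le ?_ ?_) <;> linarith
    · refine max_le ?_ (max_le ?_ ?_) <;> linarith
  have k2 := mul_nonneg hq (sub_nonneg.2 l2)
  have k3 := mul_nonneg hp (sub_nonneg.2 l3)
  have k4 := mul_nonneg hq (sub_nonneg.2 l4)
  have ez : psi * z = x - z := by rw [hz, sq]
  refine ⟨x, y, by linarith, by linarith [hz], ?_, ?_, ?_⟩
  · linarith [k2, hz, ez, e2, hc2]
  · linarith [k3, hz, ez, e3, hc3]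
  · linarith [k4, hz, ez, e4, hc4]

/-- The pentagon `T` of the `p`-plane. -/
def InT (u v : ℝ) : Prop :=
  (1 + psi) * u - (1 + psi) * v ≤ 1 ∧ (1 + psi) * u + psi * v ≤ 1 ∧ -psi * u + 2 * v ≤ 1 ∧
    -2 * u + psi * v ≤ 1 ∧ -psi * u - (1 + psi) * v ≤ 1

theorem inT_t0 : InT 0 (-psi) := by
  have := psi_gt; have := psi_lt; have := psi_mul_self
  refine ⟨?_, ?_, ?_, ?_, ?_⟩ <;> nlinarith

theorem inT_t1 : InT psi 0 := by
  have := psi_gt; have := psi_lt; have := psi_mul_self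
  refine ⟨?_, ?_, ?_, ?_, ?_⟩ <;> nlinarith

theorem inT_t2 : InT (1 - psi) psi := by
  have := psi_gt; have := psi_lt; have := psi_mul_self
  refine ⟨?_, ?_, ?_, ?_, ?_⟩ <;> nlinarith

theorem inT_t3 : InT (psi - 1) (1 - psi) := by
  have := psi_gt; have := psi_lt; have := psi_mul_self
  refine ⟨?_, ?_, ?_, ?_, ?_⟩ <;> nlinarith

theorem inT_t4 : InT (-psi) (psi - 1) := by
  have := psi_gt; have := psi_lt; have := psi_mul_self
  refine ⟨?_, ?_, ?_, ?_, ?_⟩ <;> nlinarith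

theorem inT_s0 : InT (2 - 3 * psi) (3 * psi - 2) := by
  have := psi_gt; have := psi_lt; have := psi_mul_self
  refine ⟨?_, ?_, ?_, ?_, ?_⟩ <;> nlinarith

theorem inT_s1 : InT (2 * psi - 1) (2 - 3 * psi) := by
  have := psi_gt; have := psi_lt; have := psi_mul_self
  refine ⟨?_, ?_, ?_, ?_, ?_⟩ <;> nlinarith

theorem inT_s2 : InT 0 (2 * psi - 1) := by
  have := psi_gt; have := psi_lt; have := psi_mul_self
  refine ⟨?_, ?_, ?_, ?_, ?_⟩ <;> nlinarith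

theorem inT_s3 : InT (1 - 2 * psi) 0 := by
  have := psi_gt; have := psi_lt; have := psi_mul_self
  refine ⟨?_, ?_, ?_, ?_, ?_⟩ <;> nlinarith

theorem inT_s4 : InT (3 * psi - 2) (1 - 2 * psi) := by
  have := psi_gt; have := psi_lt; have := psi_mul_self
  refine ⟨?_, ?_, ?_, ?_, ?_⟩ <;> nlinarith

/-- A closed curve `(x, y)` on `[0, T]` and a bound `B` of its `T`-length. -/
structure Curve (T : ℝ) (x y B : ℝ → ℝ) : Prop where
  hT : 0 ≤ T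
  hx : x T = x 0
  hy : y T = y 0
  len : ∀ u v, InT u v → ∀ s t, 0 ≤ s → s ≤ t → t ≤ T →
    u * (x t - x s) + v * (y t - y s) ≤ B t - B s

theorem Curve.three {T : ℝ} {x y B : ℝ → ℝ} (h : Curve T x y B) {a b c : ℝ} (ha : 0 ≤ a)
    (hab : a ≤ b) (hbc : b ≤ c) (hc : c ≤ T) {u1 v1 u2 v2 u3 v3 : ℝ} (h1 : InT u1 v1)
    (h2 : InT u2 v2) (h3 : InT u3 v3) :
    ((u3 - u1) * x a + (v3 - v1) * y a) + ((u1 - u2) * x b + (v1 - v2) * y b) +
      ((u2 - u3) * x c + (v2 - v3) * y c) ≤ B T - B 0 := by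
  have e1 := h.len u1 v1 h1 a b ha hab (hbc.trans hc)
  have e2 := h.len u2 v2 h2 b c (ha.trans hab) hbc hc
  have e3 := h.len u3 v3 h3 c T (ha.trans (hab.trans hbc)) hc le_rfl
  have e4 := h.len u3 v3 h3 0 a le_rfl ha (hab.trans (hbc.trans hc))
  rw [h.hx, h.hy] at e3
  nlinarith

/-- Three times, in any order. -/
theorem Curve.tri {T : ℝ} {x y B : ℝ → ℝ} (h : Curve T x y B) {a b c : ℝ} (ha : 0 ≤ a)
    (ha' : a ≤ T) (hb : 0 ≤ b) (hb' : b ≤ T) (hc : 0 ≤ c) (hc' : c ≤ T)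
    {u1 v1 u2 v2 u3 v3 u4 v4 : ℝ} (h1 : InT u1 v1) (h2 : InT u2 v2) (h3 : InT u3 v3)
    (h4 : InT u4 v4) (e1 : u4 = u1 + u3 - u2) (e2 : v4 = v1 + v3 - v2) :
    -- `1 = t_{i+2}`, `2 = t_{i+3}`, `3 = t_{i+4}`, `4` the reflected vertex
    ((u1 - u3) * x a + (v1 - v3) * y a) + ((u2 - u1) * x b + (v2 - v1) * y b) +
      ((u3 - u2) * x c + (v3 - v2) * y c) ≤ B T - B 0 := by
  subst e1 e2
  rcases le_total a b with hab | hab <;> rcases le_total b c with hbc | hbc <;>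
    rcases le_total a c with hac | hac
  · -- a ≤ b ≤ c
    have := h.three ha hab hbc hc' (u1 := u3) (v1 := v3) h3 h4 h1
    linarith
  · have := h.three ha hab hbc hc' (u1 := u3) (v1 := v3) h3 h4 h1
    linarith
  · -- a ≤ c ≤ b
    have := h.three ha hac hbc hb' (u1 := u3) (v1 := v3) h3 h2 h1
    linarith
  · -- c ≤ a ≤ b
    have := h.three hc hac hab hb' (u1 := u1) (v1 := v1) h1 h3 h4
    linarith
  · -- b ≤ a ≤ c
    have := h.three hb hab hac hc' (u1 := u1) (v1 := v1) h1 h3 h2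
    linarith
  · -- b ≤ c ≤ a
    have := h.three hb hbc hac ha' (u1 := u1 + u3 - u2) (v1 := v1 + v3 - v2) h4 h1 h3
    linarith
  · -- c ≤ b ≤ a
    have := h.three hc hbc hab ha' (u1 := u2) (v1 := v2) h2 h1 h3
    linarith
  · have := h.three hc hbc hab ha' (u1 := u2) (v1 := v2) h2 h1 h3
    linarith

/-- A closed curve of `T`-length at most `√5 r` lies in a translate of `r K`. -/
theorem Curve.cover {T : ℝ} {x y B : ℝ → ℝ} (h : Curve T x y B)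
    (hxc : ContinuousOn x (Icc 0 T)) (hyc : ContinuousOn y (Icc 0 T)) {r : ℝ}
    (hr : B T - B 0 ≤ (1 + 2 * psi) * r) :
    ∃ v w : ℝ, ∀ t ∈ Icc (0 : ℝ) T,
      (x t + v) + (y t + w) ≤ r ∧
      (psi - 1) * (x t + v) + (y t + w) ≤ r ∧
      -2 * psi * (x t + v) + (psi - 1) * (y t + w) ≤ r ∧
      (psi - 1) * (x t + v) + -2 * psi * (y t + w) ≤ r ∧
      (x t + v) + (psi - 1) * (y t + w) ≤ r := by
  have hne : (Icc (0 : ℝ) T).Nonempty := ⟨0, le_rfl, h.hT⟩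
  have key : ∀ α β : ℝ, ∃ t₀ ∈ Icc (0 : ℝ) T, ∀ t ∈ Icc (0 : ℝ) T,
      α * x t + β * y t ≤ α * x t₀ + β * y t₀ := by
    intro α β
    obtain ⟨t₀, ht₀, hm⟩ := isCompact_Icc.exists_isMaxOn hne
      ((continuousOn_const.mul hxc).add (continuousOn_const.mul hyc) :
        ContinuousOn (fun t => α * x t + β * y t) (Icc 0 T))
    exact ⟨t₀, ht₀, fun t ht => hm ht⟩
  obtain ⟨t0, ht0, m0⟩ := key 1 1
  obtain ⟨t1, ht1, m1⟩ := key (psi - 1) 1
  obtain ⟨t2, ht2, m2⟩ := key (-2 * psi) (psi - 1)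
  obtain ⟨t3, ht3, m3⟩ := key (psi - 1) (-2 * psi)
  obtain ⟨t4, ht4, m4⟩ := key 1 (psi - 1)
  have pp := psi_mul_self
  have sq : ∀ z : ℝ, psi * (psi * z) = z - psi * z := fun z => by
    rw [← mul_assoc, psi_mul_self]; ring
  have r0 := h.tri ht0.1 ht0.2 ht2.1 ht2.2 ht3.1 ht3.2 inT_t2 inT_t3 inT_t4 inT_s0
    (by ring) (by ring)
  have r1 := h.tri ht1.1 ht1.2 ht3.1 ht3.2 ht4.1 ht4.2 inT_t3 inT_t4 inT_t0 inT_s1
    (by ring) (by ring)
  have r2 := h.tri ht2.1 ht2.2 ht4.1 ht4.2 ht0.1 ht0.2 inT_t4 inT_t0 inT_t1 inT_s2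
    (by ring) (by ring)
  have r3 := h.tri ht3.1 ht3.2 ht0.1 ht0.2 ht1.1 ht1.2 inT_t0 inT_t1 inT_t2 inT_s3
    (by ring) (by ring)
  have r4 := h.tri ht4.1 ht4.2 ht1.1 ht1.2 ht2.1 ht2.2 inT_t1 inT_t2 inT_t3 inT_s4
    (by ring) (by ring)
  obtain ⟨v, w, a0, a1, a2, a3, a4⟩ := feasible
    (r - (1 * x t0 + 1 * y t0)) (r - ((psi - 1) * x t1 + 1 * y t1))
    (r - (-2 * psi * x t2 + (psi - 1) * y t2)) (r - ((psi - 1) * x t3 + -2 * psi * y t3))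
    (r - (1 * x t4 + (psi - 1) * y t4))
    (by linarith [r0, hr, sq (x t2), sq (y t2), sq (x t3), sq (y t3)])
    (by linarith [r1, hr, sq (x t3), sq (y t3), sq (x t4), sq (y t4)])
    (by linarith [r2, hr, sq (x t4), sq (y t4), sq (x t0), sq (y t0)])
    (by linarith [r3, hr, sq (x t0), sq (y t0), sq (x t1), sq (y t1)])
    (by linarith [r4, hr, sq (x t1), sq (y t1), sq (x t2), sq (y t2)])
  refine ⟨v, w, fun t ht => ⟨?_, ?_, ?_, ?_, ?_⟩⟩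
  · linarith [m0 t ht]
  · linarith [m1 t ht]
  · linarith [m2 t ht]
  · linarith [m3 t ht]
  · linarith [m4 t ht]

end Pool.Agent.W560.Coiso
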